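import Pool.Agent.R229.FS.Stm

/-! Basic facts on `F(M)`. -/

set_option autoImplicit false

noncomputable section

namespace Pool.Agent.R229.FS

open Filter Topology

universe u v

variable {𝕜 : Type v} [RCLike 𝕜] {M : Type u} [MetricSpace M] {o : M}

lemma incl_fr (a : M →₀ 𝕜) (g : Lip0 𝕜 M o) : (incl 𝕜 M o (fr 𝕜 M o a)) g = pr a g.fn := by
  have h1 : incl 𝕜 M o (fr 𝕜 M o a) = a.sum fun t c => c • evalAt 𝕜 M o t := by
    unfold fr
    rw [Finsupp.linearCombination_apply, Finsupp.sum, map_sum, Finsupp.sum]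
    refine Finset.sum_congr rfl fun t _ => ?_
    rw [map_smul]
    rfl
  rw [h1, Finsupp.sum]
  simp only [ContinuousLinearMap.coe_sum', Finset.sum_apply, ContinuousLinearMap.coe_smul',
    Pi.smul_apply, evalAt_apply, smul_eq_mul]
  rfl

lemma norm_incl (x : Free 𝕜 M o) : ‖incl 𝕜 M o x‖ = ‖x‖ := rfl

theorem pr_le : StmtPrLe.{u, v} := by
  intro 𝕜 _ M _ o a L f hL hf
  let g : Lip0 𝕜 M o := Lip0.mk f hf.1 L hL hf.2
  have hg : ‖g‖ ≤ L := Lip0.norm_le' _ hL hf.2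
  have h1 : ‖(incl 𝕜 M o (fr 𝕜 M o a)) g‖ ≤ ‖fr 𝕜 M o a‖ * ‖g‖ := by
    have := (incl 𝕜 M o (fr 𝕜 M o a)).le_opNorm g
    rwa [norm_incl] at this
  rw [incl_fr] at h1
  calc ‖pr a f‖ ≤ ‖fr 𝕜 M o a‖ * ‖g‖ := h1
    _ ≤ ‖fr 𝕜 M o a‖ * L := mul_le_mul_of_nonneg_left hg (norm_nonneg _)
    _ = _ := mul_comm _ _

theorem functional : StmtFunctional.{u, v} := by
  intro 𝕜 _ M _ o L f hL hf
  let g : Lip0 𝕜 M o := Lip0.mk f hf.1 L hL hf.2
  have hg : ‖g‖ ≤ L := Lip0.norm_le' _ hL hf.2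
  let Φ : StrongDual 𝕜 (Free 𝕜 M o) :=
    LinearMap.mkContinuous
      { toFun := fun x => (incl 𝕜 M o x) g
        map_add' := fun x y => by simp
        map_smul' := fun c x => by simp } L (fun x => by
          have := (incl 𝕜 M o x).le_opNorm g
          rw [norm_incl] at this
          calc ‖(incl 𝕜 M o x) g‖ ≤ ‖x‖ * ‖g‖ := this
            _ ≤ ‖x‖ * L := mul_le_mul_of_nonneg_left hg (norm_nonneg _)
            _ = _ := mul_comm _ _)
  refine ⟨Φ, LinearMap.mkContinuous_norm_le _ hL _, fun a => ?_⟩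
  exact incl_fr a g

lemma fr_sum (a : M →₀ 𝕜) : fr 𝕜 M o a = ∑ t ∈ a.support, a t • delta 𝕜 M o t := by
  unfold fr
  rw [Finsupp.linearCombination_apply]
  rfl

lemma delta_base : delta 𝕜 M o o = 0 := by
  apply Subtype.ext
  exact evalAt_base

lemma norm_delta_sub (x y : M) : ‖delta 𝕜 M o x - delta 𝕜 M o y‖ ≤ dist x y := by
  have h : ‖incl 𝕜 M o (delta 𝕜 M o x - delta 𝕜 M o y)‖ ≤ dist x y := by
    apply ContinuousLinearMap.opNorm_le_bound _ dist_nonneg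
    intro g
    have := g.norm_sub_le' x y
    rw [mul_comm]
    rw [map_sub]
    exact this
  exact h

theorem dual : StmtDual.{u, v} := by
  intro 𝕜 _ M _ o Φ
  refine ⟨fun t => Φ (delta 𝕜 M o t), ⟨?_, ?_⟩, fun _ => rfl, ?_⟩
  · show Φ (delta 𝕜 M o o) = 0
    rw [delta_base, map_zero]
  · intro x y
    show ‖Φ (delta 𝕜 M o x) - Φ (delta 𝕜 M o y)‖ ≤ _
    rw [← map_sub]
    exact (Φ.le_opNorm _).trans (mul_le_mul_of_nonneg_left (norm_delta_sub x y) (norm_nonneg _))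
  · intro a
    rw [fr_sum, map_sum]
    unfold pr
    refine Finset.sum_congr rfl fun t _ => ?_
    rw [map_smul, smul_eq_mul]

theorem norming : StmtNorming.{u, v} := by
  intro 𝕜 _ M _ o a
  obtain ⟨Φ, hΦ, hx⟩ := exists_dual_vector'' 𝕜 (fr 𝕜 M o a)
  obtain ⟨f, hf, -, hfa⟩ := dual 𝕜 M o Φ
  refine ⟨f, ⟨hf.1, fun x y => (hf.2 x y).trans ?_⟩, ?_⟩
  · exact mul_le_mul_of_nonneg_right hΦ dist_nonneg
  · rw [← hfa, hx]

lemma pr_eq_sum (a : M →₀ 𝕜) (f : M → 𝕜) (s : Finset M) (hs : a.support ⊆ s) :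
    pr a f = ∑ t ∈ s, a t * f t := by
  unfold pr
  refine Finset.sum_subset hs fun t _ ht => ?_
  rw [Finsupp.notMem_support_iff.1 ht, zero_mul]

theorem dense : StmtDense.{u, v} := by
  intro 𝕜 _ M _ o x η hη
  have hx : (x : Free 𝕜 M o).1 ∈ closure ((Submodule.span 𝕜 (Set.range (evalAt 𝕜 M o)) :
      Submodule 𝕜 (StrongDual 𝕜 (Lip0 𝕜 M o))) : Set (StrongDual 𝕜 (Lip0 𝕜 M o))) := x.2
  obtain ⟨y, hy, hxy⟩ := Metric.mem_closure_iff.1 hx η hη
  obtain ⟨b, hb⟩ := (Finsupp.mem_span_range_iff_exists_finsupp).1 hy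
  refine ⟨b.erase o, Finsupp.erase_same, ?_⟩
  have h1 : fr 𝕜 M o (b.erase o) = fr 𝕜 M o b := by
    have h2 : b = b.erase o + Finsupp.single o (b o) := (Finsupp.erase_add_single o b).symm
    conv_rhs => rw [h2]
    rw [map_add]
    have : fr 𝕜 M o (Finsupp.single o (b o)) = 0 := by
      unfold fr
      rw [Finsupp.linearCombination_single, delta_base, smul_zero]
    rw [this, add_zero]
  have h3 : incl 𝕜 M o (fr 𝕜 M o b) = y := by
    rw [← hb, fr_sum, map_sum]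
    rfl
  rw [h1, ← norm_incl, map_sub, h3, ← dist_eq_norm]
  exact hxy

theorem mass : StmtMass.{u, v} := by
  intro 𝕜 _ M _ o ε hε hsep a ha
  classical
  -- test function
  let f : M → 𝕜 := fun t => if a t = 0 then 0 else ((ε / 2 : ℝ) : 𝕜) * ((starRingEnd 𝕜) (a t) / (‖a t‖ : 𝕜))
  have hnf : ∀ t, ‖f t‖ ≤ ε / 2 := by
    intro t
    by_cases h : a t = 0
    · simp only [f, h, if_true, norm_zero]; positivity
    · simp only [f, h, if_false]
      rw [norm_mul, norm_div, RCLike.norm_conj, RCLike.norm_ofReal, RCLike.norm_ofReal, abs_norm,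
        div_self (norm_ne_zero_iff.2 h), mul_one, abs_of_pos (by positivity)]
  have hf : IsLip o 1 f := by
    refine ⟨by simp [f, ha], fun x y => ?_⟩
    rcases eq_or_ne x y with rfl | hxy
    · simp
    · rw [one_mul]
      calc ‖f x - f y‖ ≤ ‖f x‖ + ‖f y‖ := norm_sub_le _ _
        _ ≤ ε / 2 + ε / 2 := add_le_add (hnf x) (hnf y)
        _ = ε := by ring
        _ ≤ dist x y := hsep x y hxy
  have h1 := pr_le 𝕜 M o a 1 f zero_le_one hf
  have h2 : pr a f = ((ε / 2 * ∑ t ∈ a.support, ‖a t‖ : ℝ) : 𝕜) := by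
    unfold pr
    rw [Finset.mul_sum, RCLike.ofReal_sum]
    refine Finset.sum_congr rfl fun t ht => ?_
    have h : a t ≠ 0 := Finsupp.mem_support_iff.1 ht
    have hn : (‖a t‖ : 𝕜) ≠ 0 := by
      simpa using h
    simp only [f, h, if_false]
    rw [mul_div_assoc', mul_div_assoc', div_eq_iff hn]
    have h3 : a t * (starRingEnd 𝕜) (a t) = (‖a t‖ : 𝕜) ^ 2 := RCLike.mul_conj _
    push_cast
    linear_combination ((ε : 𝕜) / 2) * h3
  rw [h2, RCLike.norm_ofReal, one_mul, abs_of_nonneg (by positivity)] at h1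
  rw [div_mul_eq_mul_div, le_div_iff₀ hε]
  linarith

end Pool.Agent.R229.FS
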