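import Pool.Agent.R229.FS.Basic

/-! The core: gluing of sign patterns over a sparse subsequence. -/

set_option autoImplicit false
set_option linter.unusedSectionVars false

noncomputable section

namespace Pool.Agent.R229.FS

open Filter Topology

universe u v

section sel

variable {𝕜 : Type v} [RCLike 𝕜] {M : Type u} [MetricSpace M] {o : M}

/-- `t` is within `ρ` of `G` -/
def nr (G : Finset M) (ρ : ℝ) (t : M) : Prop := ∃ g ∈ G, dist t g ≤ ρ

lemma nr_mono {G G' : Finset M} (h : G ⊆ G') {ρ : ℝ} {t : M} (ht : nr G ρ t) : nr G' ρ t := by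
  obtain ⟨g, hg, hd⟩ := ht
  exact ⟨g, h hg, hd⟩

open Classical in
/-- the mass of `a` on the set `p` -/
def ms (a : M →₀ 𝕜) (p : M → Prop) : ℝ := ∑ t ∈ a.support, if p t then ‖a t‖ else 0

lemma ms_nonneg (a : M →₀ 𝕜) (p : M → Prop) : 0 ≤ ms a p := by
  classical
  exact Finset.sum_nonneg fun t _ => by split_ifs <;> simp

lemma ms_le (a : M →₀ 𝕜) (p : M → Prop) {K : ℝ} (h : ∑ t ∈ a.support, ‖a t‖ ≤ K) :
    ms a p ≤ K := by
  classical
  refine le_trans (Finset.sum_le_sum fun t _ => ?_) h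
  split_ifs <;> simp

lemma ms_add (a : M →₀ 𝕜) (p q : M → Prop) (h : ∀ t, p t → q t) :
    ms a q = ms a p + ms a (fun t => q t ∧ ¬ p t) := by
  classical
  unfold ms
  rw [← Finset.sum_add_distrib]
  refine Finset.sum_congr rfl fun t _ => ?_
  by_cases hp : p t
  · simp [hp, h t hp]
  · simp [hp]

/-- Selection of a finite set which captures the mass at scale `ρ`. -/
lemma select (U : Ultrafilter ℕ) (a : ℕ → M →₀ 𝕜) (K : ℝ)
    (hK : ∀ k, ∑ t ∈ (a k).support, ‖a k t‖ ≤ K) (ρ κ : ℝ) (hκ : 0 < κ) :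
    ∃ G : Finset M, ∀ G' : Finset M, G ⊆ G' →
      ∀ᶠ k in (U : Filter ℕ), ms (a k) (fun t => nr G' ρ t ∧ ¬ nr G ρ t) ≤ κ := by
  by_contra hcon
  push Not at hcon
  have hstep : ∀ n : ℕ, ∃ G : Finset M, ∀ᶠ k in (U : Filter ℕ), n * κ ≤ ms (a k) (nr G ρ) := by
    intro n
    induction n with
    | zero => exact ⟨∅, Eventually.of_forall fun k => by
        simpa using ms_nonneg (a k) (nr ∅ ρ)⟩
    | succ n ih =>
      obtain ⟨G, hG⟩ := ih
      obtain ⟨G', hGG', hG'⟩ := hcon G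
      refine ⟨G', ?_⟩
      filter_upwards [hG, hG'] with k h2 h3
      rw [ms_add (a k) (nr G ρ) (nr G' ρ) (fun t ht => nr_mono hGG' ht)]
      push_cast
      linarith
  obtain ⟨n, hn⟩ := exists_nat_gt (K / κ)
  obtain ⟨G, hG⟩ := hstep n
  obtain ⟨k, hk⟩ := hG.exists
  have h1 := ms_le (a k) (nr G ρ) (hK k)
  rw [div_lt_iff₀ hκ] at hn
  linarith

end sel

/-- Extension of scalar Lipschitz functions. -/
lemma extend_lip {𝕜 : Type v} [RCLike 𝕜] {M : Type u} [MetricSpace M] (f : M → 𝕜) (S : Set M)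
    (h : ∀ x ∈ S, ∀ y ∈ S, ‖f x - f y‖ ≤ 4 * dist x y) :
    ∃ g : M → 𝕜, (∀ x y, ‖g x - g y‖ ≤ 8 * dist x y) ∧ ∀ x ∈ S, g x = f x := by
  have h1 : LipschitzOnWith 4 (fun x => RCLike.re (f x)) S := by
    refine LipschitzOnWith.of_dist_le_mul fun x hx y hy => ?_
    rw [Real.dist_eq, ← map_sub]
    exact (RCLike.abs_re_le_norm _).trans (h x hx y hy)
  have h2 : LipschitzOnWith 4 (fun x => RCLike.im (f x)) S := by
    refine LipschitzOnWith.of_dist_le_mul fun x hx y hy => ?_
    rw [Real.dist_eq, ← map_sub]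
    exact (RCLike.abs_im_le_norm _).trans (h x hx y hy)
  obtain ⟨g1, hg1, he1⟩ := h1.extend_real
  obtain ⟨g2, hg2, he2⟩ := h2.extend_real
  refine ⟨fun x => (g1 x : 𝕜) + (g2 x : 𝕜) * RCLike.I, fun x y => ?_, fun x hx => ?_⟩
  · have e : ((g1 x : 𝕜) + (g2 x : 𝕜) * RCLike.I) - ((g1 y : 𝕜) + (g2 y : 𝕜) * RCLike.I) =
        ((g1 x - g1 y : ℝ) : 𝕜) + ((g2 x - g2 y : ℝ) : 𝕜) * RCLike.I := by
      push_cast; ring
    rw [e]
    have hI : ‖(RCLike.I : 𝕜)‖ ≤ 1 := by
      rcases RCLike.I_eq_zero_or_im_I_eq_one (K := 𝕜) with hI | hI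
      · rw [hI, norm_zero]; exact zero_le_one
      · have : (RCLike.I : 𝕜) ≠ 0 := by
          intro h0
          rw [h0] at hI
          simp at hI
        exact (RCLike.norm_I_of_ne_zero this).le
    have a1 : |g1 x - g1 y| ≤ 4 * dist x y := by
      have := hg1.dist_le_mul x y
      rwa [Real.dist_eq] at this
    have a2 : |g2 x - g2 y| ≤ 4 * dist x y := by
      have := hg2.dist_le_mul x y
      rwa [Real.dist_eq] at this
    calc _ ≤ ‖((g1 x - g1 y : ℝ) : 𝕜)‖ + ‖((g2 x - g2 y : ℝ) : 𝕜) * RCLike.I‖ := norm_add_le _ _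
      _ ≤ |g1 x - g1 y| + |g2 x - g2 y| * 1 := by
          rw [norm_mul, RCLike.norm_ofReal, RCLike.norm_ofReal]
          exact add_le_add le_rfl (mul_le_mul_of_nonneg_left hI (abs_nonneg _))
      _ ≤ _ := by linarith
  · show (g1 x : 𝕜) + (g2 x : 𝕜) * RCLike.I = f x
    rw [← he1 hx, ← he2 hx]
    exact RCLike.re_add_im (f x)

/-- The recursion. -/
lemma choose_seq {M : Type u} [DecidableEq M] (supp : ℕ → Finset M) (P : Finset M → ℕ → Prop)
    (H : ∀ F : Finset M, ∀ N : ℕ, ∃ k, N < k ∧ P F k) :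
    ∃ (φ : ℕ → ℕ) (F : ℕ → Finset M), StrictMono φ ∧ (∀ n, P (F n) (φ n)) ∧
      (∀ m n, m < n → supp (φ m) ⊆ F n) ∧ (∀ m n, m ≤ n → F m ⊆ F n) := by
  choose nx hnx hP using H
  let st : ℕ → Finset M × ℕ := fun n => Nat.rec (∅, 0)
    (fun _ s => (s.1 ∪ supp (nx s.1 s.2), nx s.1 s.2)) n
  have hst : ∀ n, st (n + 1) = ((st n).1 ∪ supp (nx (st n).1 (st n).2), nx (st n).1 (st n).2) :=
    fun _ => rfl
  have hF : ∀ m n, m ≤ n → (st m).1 ⊆ (st n).1 := by
    intro m n hmn
    induction n, hmn using Nat.le_induction with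
    | base => exact Finset.Subset.refl _
    | succ n _ ih => rw [hst]; exact ih.trans Finset.subset_union_left
  refine ⟨fun n => (st (n + 1)).2, fun n => (st n).1, ?_, ?_, ?_, hF⟩
  · refine strictMono_nat_of_lt_succ fun n => ?_
    show (st (n + 1)).2 < (st (n + 1 + 1)).2
    rw [hst (n + 1)]
    exact hnx _ _
  · intro n
    show P (st n).1 (st (n + 1)).2
    rw [hst n]
    exact hP _ _
  · intro m n hmn
    refine Finset.Subset.trans ?_ (hF (m + 1) n hmn)
    rw [hst m]
    exact Finset.subset_union_right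

theorem core : StmtCore.{u, v} := by
  classical
  intro 𝕜 _ M _ o a ε D K θ κ hε hD hK hκ hsep hsupp hmass hfar
  let U : Ultrafilter ℕ := hyperfilter ℕ
  have hU : (U : Filter ℕ) ≤ atTop := Nat.hyperfilter_le_atTop
  -- scales
  let ρ : ℕ → ℝ := fun i => 2 * D / 2 ^ i
  obtain ⟨I, hI⟩ : ∃ I : ℕ, ρ I < ε := by
    obtain ⟨I, hI⟩ := pow_unbounded_of_one_lt (2 * D / ε) (one_lt_two)
    refine ⟨I, ?_⟩
    show 2 * D / 2 ^ I < ε
    rw [div_lt_iff₀ (by positivity)]
    rw [div_lt_iff₀ hε] at hI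
    linarith
  have hρ0 : ρ 0 = 2 * D := by simp [ρ]
  have hρs : ∀ i, ρ i = 2 * ρ (i + 1) := by
    intro i
    show 2 * D / 2 ^ i = 2 * (2 * D / 2 ^ (i + 1))
    rw [pow_succ]
    field_simp
  have hscale : ∀ d : ℝ, ε ≤ d → d ≤ 2 * D → ∃ i, i ≤ I ∧ d ≤ ρ i ∧ ρ i < 2 * d := by
    intro d hd hdD
    have hex : ∃ j, ρ j < d := ⟨I, lt_of_lt_of_le hI hd⟩
    let j := Nat.find hex
    have hj : ρ j < d := Nat.find_spec hex
    have hj0 : j ≠ 0 := by
      intro h0
      rw [h0, hρ0] at hj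
      linarith
    obtain ⟨i, hi⟩ := Nat.exists_eq_succ_of_ne_zero hj0
    have hjI : j ≤ I := Nat.find_min' hex (lt_of_lt_of_le hI hd)
    refine ⟨i, by omega, ?_, ?_⟩
    · have := Nat.find_min hex (show i < j by omega)
      exact not_lt.1 this
    · rw [hρs i]
      rw [hi] at hj
      exact mul_lt_mul_of_pos_left hj two_pos
  -- the mass tolerance
  let κ2 : ℝ := κ / (9 * D * (I + 1))
  have hκ2 : 0 < κ2 := by positivity
  choose G hG using fun i : ℕ => select U a K hmass (ρ i) κ2 hκ2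
  let F0 : Finset M := (Finset.range (I + 1)).biUnion G ∪ {o}
  have hGF : ∀ i, i ≤ I → G i ⊆ F0 := by
    intro i hi
    refine Finset.Subset.trans ?_ Finset.subset_union_left
    exact Finset.subset_biUnion_of_mem G (Finset.mem_range.2 (by omega))
  -- the property
  let P : Finset M → ℕ → Prop := fun F k =>
    (∀ i, i ≤ I → ms (a k) (fun t => nr (F ∪ F0) (ρ i) t ∧ ¬ nr (G i) (ρ i) t) ≤ κ2) ∧
    ∃ h : M → 𝕜, IsLip o 1 h ∧ (∀ t ∈ F ∪ F0, h t = 0) ∧ θ ≤ RCLike.re (pr (a k) h)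
  have HP : ∀ F : Finset M, ∀ N : ℕ, ∃ k, N < k ∧ P F k := by
    intro F N
    have h1 : ∀ᶠ k in (U : Filter ℕ), ∀ i ∈ Finset.range (I + 1),
        ms (a k) (fun t => nr (F ∪ F0) (ρ i) t ∧ ¬ nr (G i) (ρ i) t) ≤ κ2 := by
      rw [eventually_all_finset]
      intro i hi
      exact hG i (F ∪ F0) ((hGF i (by have := Finset.mem_range.1 hi; omega)).trans
        Finset.subset_union_right)
    have h2 := hU (hfar (F ∪ F0))
    have h3 : ∀ᶠ k in (U : Filter ℕ), N < k := hU (eventually_gt_atTop N)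
    obtain ⟨k, hk1, hk2, hk3⟩ := (h1.and (Filter.Eventually.and h2 h3)).exists
    exact ⟨k, hk3, fun i hi => hk1 i (Finset.mem_range.2 (by omega)), hk2⟩
  obtain ⟨φ, F, hφ, hPφ, hsub, hFm⟩ := choose_seq (fun k => (a k).support) P HP
  refine ⟨φ, hφ, fun u hu => ?_⟩
  choose h hlip hzero hθ using fun n => (hPφ n).2
  have hbadm := fun n => (hPφ n).1
  -- the good part
  let S : ℕ → Set M := fun n => {t | t ∈ (a (φ n)).support ∧
    ∀ i, i ≤ I → nr (F n ∪ F0) (ρ i) t → nr (G i) (ρ i) t}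
  have hSm : ∀ n t, t ∈ S n → ∀ m, n < m → h m t = 0 := by
    intro n t ht m hnm
    exact hzero m t (Finset.mem_union_left _ (hsub n m hnm ht.1))
  -- a point in the support of two is in `F0`
  have hovl : ∀ n m t, n < m → t ∈ S n → t ∈ S m → h n t = 0 := by
    intro n m t hnm htn htm
    have h1 : nr (F m ∪ F0) (ρ I) t :=
      ⟨t, Finset.mem_union_left _ (hsub n m hnm htn.1), by
        rw [dist_self]; positivity⟩
    obtain ⟨g, hg, hd⟩ := htm.2 I le_rfl h1
    have h2 : t = g := by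
      by_contra hne
      have := hsep t g hne
      linarith
    rw [h2]
    exact hzero n g (Finset.mem_union_right _ (hGF I le_rfl hg))
  have hcross : ∀ n m s t, n < m → s ∈ S n → t ∈ S m → s ≠ t →
      ‖h n s‖ + ‖h m t‖ ≤ 4 * dist s t := by
    intro n m s t hnm hs ht hne
    have hd : ε ≤ dist s t := hsep s t hne
    have hdD : dist s t ≤ 2 * D := by
      have h1 := hsupp (φ n) s hs.1
      have h2 := hsupp (φ m) t ht.1
      have h3 := dist_triangle_right s t o
      linarith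
    obtain ⟨i, hi, hi1, hi2⟩ := hscale _ hd hdD
    have h1 : nr (F m ∪ F0) (ρ i) t :=
      ⟨s, Finset.mem_union_left _ (hsub n m hnm hs.1), by rw [dist_comm]; exact hi1⟩
    obtain ⟨g, hg, hgd⟩ := ht.2 i hi h1
    have h2 : h n g = 0 := hzero n g (Finset.mem_union_right _ (hGF i hi hg))
    have h3 : ‖h n s‖ ≤ dist s g := by
      have := (hlip n).2 s g
      rwa [h2, sub_zero, one_mul] at this
    have h4 : dist s g ≤ dist s t + dist t g := dist_triangle _ _ _
    have h5 : ‖h m t‖ ≤ dist s t := by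
      have := (hlip m).2 t s
      rw [hSm n s hs m hnm, sub_zero, one_mul, dist_comm] at this
      exact this
    linarith
  -- the glued function
  let f0 : M → 𝕜 := fun t => if hex : ∃ n, t ∈ S n then
    (starRingEnd 𝕜) (u (Nat.find hex)) * h (Nat.find hex) t else 0
  have hf0 : ∀ n t, t ∈ S n → f0 t = (starRingEnd 𝕜) (u n) * h n t := by
    intro n t ht
    have hex : ∃ n, t ∈ S n := ⟨n, ht⟩
    have hfind : t ∈ S (Nat.find hex) := Nat.find_spec hex
    have hle : Nat.find hex ≤ n := Nat.find_min' hex ht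
    have e : f0 t = (starRingEnd 𝕜) (u (Nat.find hex)) * h (Nat.find hex) t := dif_pos hex
    rw [e]
    rcases hle.lt_or_eq with hlt | heq
    · rw [hovl _ _ t hlt hfind ht, hSm _ t hfind n hlt, mul_zero, mul_zero]
    · rw [heq]
  have hf0' : ∀ t, (∀ n, t ∉ S n) → f0 t = 0 := by
    intro t ht
    have hex : ¬ ∃ n, t ∈ S n := by push Not; exact ht
    exact dif_neg hex
  have hf0o : f0 o = 0 := by
    by_cases hex : ∃ n, o ∈ S n
    · obtain ⟨n, hn⟩ := hex
      rw [hf0 n o hn, (hlip n).1, mul_zero]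
    · push Not at hex
      exact hf0' o hex
  have hun : ∀ n, ‖(starRingEnd 𝕜) (u n)‖ = 1 := fun n => by rw [RCLike.norm_conj]; exact hu n
  let T : Set M := {t | t = o ∨ ∃ n, t ∈ S n}
  have hcore : ∀ n m s t, s ∈ S n → t ∈ S m → ‖f0 s - f0 t‖ ≤ 4 * dist s t := by
    intro n m s t hs ht
    rcases eq_or_ne s t with rfl | hne
    · simp
    rw [hf0 n s hs, hf0 m t ht]
    rcases lt_trichotomy n m with hlt | heq | hgt
    · refine (norm_sub_le _ _).trans ?_
      rw [norm_mul, norm_mul, hun, hun, one_mul, one_mul]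
      exact hcross n m s t hlt hs ht hne
    · subst heq
      rw [← mul_sub, norm_mul, hun, one_mul]
      have := (hlip n).2 s t
      have hd : 0 ≤ dist s t := dist_nonneg
      linarith
    · refine (norm_sub_le _ _).trans ?_
      rw [norm_mul, norm_mul, hun, hun, one_mul, one_mul]
      have := hcross m n t s hgt ht hs hne.symm
      rw [dist_comm t s] at this
      linarith
  have hlipT : ∀ x ∈ T, ∀ y ∈ T, ‖f0 x - f0 y‖ ≤ 4 * dist x y := by
    have hb : ∀ n s, s ∈ S n → ‖f0 s‖ ≤ 4 * dist s o := by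
      intro n s hs
      rw [hf0 n s hs, norm_mul, hun, one_mul]
      have := (hlip n).2 s o
      rw [(hlip n).1, sub_zero] at this
      have hd : 0 ≤ dist s o := dist_nonneg
      linarith
    rintro x (rfl | ⟨n, hx⟩) y (rfl | ⟨m, hy⟩)
    · simp
    · rw [hf0o, zero_sub, norm_neg, dist_comm]
      exact hb m y hy
    · rw [hf0o, sub_zero]
      exact hb n x hx
    · exact hcore n m x y hx hy
  obtain ⟨g, hg, hgT⟩ := extend_lip f0 T hlipT
  have hgo : g o = 0 := by rw [hgT o (Or.inl rfl), hf0o]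
  refine ⟨g, ⟨hgo, hg⟩, fun n => ?_⟩
  -- the estimate
  have hbadle : ms (a (φ n)) (fun t => t ∉ S n) ≤ (I + 1) * κ2 := by
    have h1 : ms (a (φ n)) (fun t => t ∉ S n) ≤ ∑ i ∈ Finset.range (I + 1),
        ms (a (φ n)) (fun t => nr (F n ∪ F0) (ρ i) t ∧ ¬ nr (G i) (ρ i) t) := by
      unfold ms
      rw [Finset.sum_comm]
      refine Finset.sum_le_sum fun t ht => ?_
      split_ifs with hb
      · have : ∃ i, i ≤ I ∧ nr (F n ∪ F0) (ρ i) t ∧ ¬ nr (G i) (ρ i) t := by
          by_contra hno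
          push Not at hno
          exact hb ⟨ht, fun i hi h1 => hno i hi h1⟩
        obtain ⟨i, hi, h1, h2⟩ := this
        have hir : i ∈ Finset.range (I + 1) := Finset.mem_range.2 (by omega)
        have h3 : ‖a (φ n) t‖ = (if nr (F n ∪ F0) (ρ i) t ∧ ¬ nr (G i) (ρ i) t
            then ‖a (φ n) t‖ else 0) := by rw [if_pos ⟨h1, h2⟩]
        refine h3.le.trans ?_
        refine (Finset.single_le_sum (f := fun i => if nr (F n ∪ F0) (ρ i) t ∧
            ¬ nr (G i) (ρ i) t then ‖a (φ n) t‖ else 0)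
            (fun i _ => by split_ifs <;> simp) hir).trans (le_of_eq ?_)
        refine Finset.sum_congr rfl fun x _ => ?_
        congr
      · exact Finset.sum_nonneg fun i _ => by split_ifs <;> simp
    refine h1.trans ?_
    have h2 : ∑ i ∈ Finset.range (I + 1),
        ms (a (φ n)) (fun t => nr (F n ∪ F0) (ρ i) t ∧ ¬ nr (G i) (ρ i) t) ≤
        ∑ i ∈ Finset.range (I + 1), κ2 := by
      refine Finset.sum_le_sum fun i hi => ?_
      exact hbadm n i (by have := Finset.mem_range.1 hi; omega)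
    refine h2.trans (le_of_eq ?_)
    rw [Finset.sum_const, Finset.card_range, nsmul_eq_mul]; push_cast; ring
  have hdiff : ‖u n * pr (a (φ n)) g - pr (a (φ n)) (h n)‖ ≤ 9 * D * ms (a (φ n)) (fun t => t ∉ S n) := by
    have huc : u n * (starRingEnd 𝕜) (u n) = 1 := by
      rw [RCLike.mul_conj, hu n]; simp
    unfold pr ms
    rw [Finset.mul_sum, ← Finset.sum_sub_distrib, Finset.mul_sum]
    refine norm_sum_le_of_le _ fun t ht => ?_
    split_ifs with hb
    · have h1 : ‖g t‖ ≤ 8 * D := by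
        have := hg t o
        rw [hgo, sub_zero] at this
        have h2 := hsupp (φ n) t ht
        linarith
      have h2 : ‖h n t‖ ≤ D := by
        have := (hlip n).2 t o
        rw [(hlip n).1, sub_zero, one_mul] at this
        exact this.trans (hsupp (φ n) t ht)
      have e : u n * (a (φ n) t * g t) - a (φ n) t * h n t = a (φ n) t * (u n * g t - h n t) := by
        ring
      rw [e, norm_mul]
      have h3 : ‖u n * g t - h n t‖ ≤ 9 * D := by
        refine (norm_sub_le _ _).trans ?_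
        rw [norm_mul, hu n, one_mul]
        linarith
      calc ‖a (φ n) t‖ * ‖u n * g t - h n t‖ ≤ ‖a (φ n) t‖ * (9 * D) :=
            mul_le_mul_of_nonneg_left h3 (norm_nonneg _)
        _ = _ := by ring
    · have hb' : t ∈ S n := by_contra hb
      rw [hgT t (Or.inr ⟨n, hb'⟩), hf0 n t hb']
      have e : u n * (a (φ n) t * ((starRingEnd 𝕜) (u n) * h n t)) - a (φ n) t * h n t = 0 := by
        linear_combination (a (φ n) t * h n t) * huc
      rw [e, norm_zero, mul_zero]
  have hfin : ‖u n * pr (a (φ n)) g - pr (a (φ n)) (h n)‖ ≤ κ := by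
    refine hdiff.trans ?_
    calc 9 * D * ms (a (φ n)) (fun t => t ∉ S n) ≤ 9 * D * ((I + 1) * κ2) :=
          mul_le_mul_of_nonneg_left hbadle (by positivity)
      _ = κ := by
          show 9 * D * ((I + 1) * (κ / (9 * D * (I + 1)))) = κ
          field_simp
  have h1 := RCLike.abs_re_le_norm (u n * pr (a (φ n)) g - pr (a (φ n)) (h n))
  rw [map_sub] at h1
  have h2 := (abs_le.1 (h1.trans hfin)).1
  have h3 := hθ n
  linarith

end Pool.Agent.R229.FS
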