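import Mathlib

/-! The Lipschitz-free space `F(M)` of a pointed metric space, over `ℝ` or `ℂ`. -/

set_option autoImplicit false

noncomputable section

namespace Pool.Agent.R229.FS

open Set

universe u v

/-- The vector space of the scalar Lipschitz functions on `M` which vanish at `o`. -/
def lipSub (𝕜 : Type v) [RCLike 𝕜] (M : Type u) [MetricSpace M] (o : M) :
    Submodule 𝕜 (M → 𝕜) where
  carrier := {f | f o = 0 ∧ ∃ K : ℝ, 0 ≤ K ∧ ∀ x y, ‖f x - f y‖ ≤ K * dist x y}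
  zero_mem' := ⟨rfl, 0, le_rfl, fun x y => by simp⟩
  add_mem' := by
    rintro f g ⟨hf, K, hK, hfK⟩ ⟨hg, L, hL, hgL⟩
    refine ⟨by simp [hf, hg], K + L, by positivity, fun x y => ?_⟩
    have : (f + g) x - (f + g) y = (f x - f y) + (g x - g y) := by
      simp only [Pi.add_apply]; ring
    rw [this]
    calc _ ≤ ‖f x - f y‖ + ‖g x - g y‖ := norm_add_le _ _
      _ ≤ _ := by rw [add_mul]; exact add_le_add (hfK x y) (hgL x y)
  smul_mem' := by
    rintro c f ⟨hf, K, hK, hfK⟩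
    refine ⟨by simp [hf], ‖c‖ * K, by positivity, fun x y => ?_⟩
    have : (c • f) x - (c • f) y = c * (f x - f y) := by
      simp only [Pi.smul_apply, smul_eq_mul]; ring
    rw [this, norm_mul, mul_assoc]
    exact mul_le_mul_of_nonneg_left (hfK x y) (norm_nonneg _)

/-- `Lip0 𝕜 M o`: the space of the scalar Lipschitz functions on `M` vanishing at `o`, normed by
the least Lipschitz constant. -/
def Lip0 (𝕜 : Type v) [RCLike 𝕜] (M : Type u) [MetricSpace M] (o : M) : Type (max u v) :=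
  ↥(lipSub 𝕜 M o)

variable {𝕜 : Type v} [RCLike 𝕜] {M : Type u} [MetricSpace M] {o : M}

/-- The underlying function. -/
def Lip0.fn (f : Lip0 𝕜 M o) : M → 𝕜 := f.1

section raw

/-- pointwise addition -/
local instance lipACG : AddCommGroup (Lip0 𝕜 M o) := Submodule.addCommGroup (lipSub 𝕜 M o)
/-- pointwise scalar multiplication -/
local instance lipMod : Module 𝕜 (Lip0 𝕜 M o) := Submodule.module (lipSub 𝕜 M o)

/-- The norm: the least Lipschitz constant. -/
instance : Norm (Lip0 𝕜 M o) :=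
  ⟨fun f => sInf {K : ℝ | 0 ≤ K ∧ ∀ x y, ‖f.fn x - f.fn y‖ ≤ K * dist x y}⟩

theorem Lip0.ext {f g : Lip0 𝕜 M o} (h : ∀ x, f.fn x = g.fn x) : f = g :=
  Subtype.ext (funext h)

theorem Lip0.set_nonempty (f : Lip0 𝕜 M o) :
    {K : ℝ | 0 ≤ K ∧ ∀ x y, ‖f.fn x - f.fn y‖ ≤ K * dist x y}.Nonempty := by
  obtain ⟨K, hK, h⟩ := f.2.2
  exact ⟨K, hK, h⟩

theorem Lip0.norm_le' (f : Lip0 𝕜 M o) {K : ℝ} (hK : 0 ≤ K)
    (h : ∀ x y, ‖f.fn x - f.fn y‖ ≤ K * dist x y) : ‖f‖ ≤ K :=
  csInf_le ⟨0, fun _ h => h.1⟩ ⟨hK, h⟩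

theorem Lip0.norm_nonneg' (f : Lip0 𝕜 M o) : 0 ≤ ‖f‖ :=
  le_csInf f.set_nonempty fun _ h => h.1

theorem Lip0.norm_sub_le' (f : Lip0 𝕜 M o) (x y : M) :
    ‖f.fn x - f.fn y‖ ≤ ‖f‖ * dist x y := by
  rcases eq_or_ne x y with rfl | hxy
  · simp
  · have hd : 0 < dist x y := dist_pos.2 hxy
    rw [← div_le_iff₀ hd]
    refine le_csInf f.set_nonempty ?_
    rintro K ⟨_, hK⟩
    rw [div_le_iff₀ hd]
    exact hK x y

theorem Lip0.fn_base (f : Lip0 𝕜 M o) : f.fn o = 0 := f.2.1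

theorem Lip0.core : NormedSpace.Core 𝕜 (Lip0 𝕜 M o) where
  norm_nonneg f := f.norm_nonneg'
  norm_smul c f := by
    have hs : ∀ x, (c • f).fn x = c * f.fn x := fun _ => rfl
    apply le_antisymm
    · refine Lip0.norm_le' _ (mul_nonneg (norm_nonneg _) f.norm_nonneg') fun x y => ?_
      have : (c • f).fn x - (c • f).fn y = c * (f.fn x - f.fn y) := by
        simp only [hs]; ring
      rw [this, norm_mul, mul_assoc]
      exact mul_le_mul_of_nonneg_left (f.norm_sub_le' x y) (norm_nonneg _)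
    · rcases eq_or_ne c 0 with rfl | hc
      · simp only [norm_zero, zero_mul]; exact Lip0.norm_nonneg' _
      · have hc' : 0 < ‖c‖ := norm_pos_iff.2 hc
        rw [← le_div_iff₀' hc']
        refine Lip0.norm_le' _ (div_nonneg (Lip0.norm_nonneg' _) hc'.le) fun x y => ?_
        have h1 := (c • f).norm_sub_le' x y
        have : (c • f).fn x - (c • f).fn y = c * (f.fn x - f.fn y) := by
          simp only [hs]; ring
        rw [this, norm_mul] at h1
        rw [div_mul_eq_mul_div, le_div_iff₀ hc']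
        rw [mul_comm]
        exact h1
  norm_triangle f g := by
    refine Lip0.norm_le' _ (add_nonneg f.norm_nonneg' g.norm_nonneg') fun x y => ?_
    have hs : ∀ x, (f + g).fn x = f.fn x + g.fn x := fun _ => rfl
    have : (f + g).fn x - (f + g).fn y = (f.fn x - f.fn y) + (g.fn x - g.fn y) := by
      simp only [hs]; ring
    rw [this]
    calc _ ≤ ‖f.fn x - f.fn y‖ + ‖g.fn x - g.fn y‖ := norm_add_le _ _
      _ ≤ _ := by rw [add_mul]; exact add_le_add (f.norm_sub_le' x y) (g.norm_sub_le' x y)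
  norm_eq_zero_iff f := by
    constructor
    · intro h
      apply Lip0.ext
      intro x
      have h1 := f.norm_sub_le' x o
      rw [h, zero_mul, Lip0.fn_base, sub_zero] at h1
      exact norm_le_zero_iff.1 h1
    · rintro rfl
      apply le_antisymm _ (Lip0.norm_nonneg' _)
      have hs : ∀ x, (0 : Lip0 𝕜 M o).fn x = 0 := fun _ => rfl
      refine Lip0.norm_le' _ le_rfl fun x y => by simp [hs]

instance : NormedAddCommGroup (Lip0 𝕜 M o) :=
  NormedAddCommGroup.ofCore (Lip0.core (𝕜 := 𝕜) (M := M) (o := o))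
instance : NormedSpace 𝕜 (Lip0 𝕜 M o) := NormedSpace.ofCore (Lip0.core (𝕜 := 𝕜) (M := M) (o := o))

end raw

/-- The evaluation functional `f ↦ f x` on `Lip0 𝕜 M o`. -/
def evalAt (𝕜 : Type v) [RCLike 𝕜] (M : Type u) [MetricSpace M] (o : M) (x : M) :
    StrongDual 𝕜 (Lip0 𝕜 M o) :=
  LinearMap.mkContinuous
    { toFun := fun f => f.fn x
      map_add' := fun _ _ => rfl
      map_smul' := fun _ _ => rfl } (dist x o) (fun f => by
        have := f.norm_sub_le' x o
        rw [Lip0.fn_base, sub_zero, mul_comm] at this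
        exact this)

/-- The Lipschitz-free space of `M`, as a subspace of the dual of `Lip0 𝕜 M o`: the closed linear
span of the evaluations. -/
def freeSub (𝕜 : Type v) [RCLike 𝕜] (M : Type u) [MetricSpace M] (o : M) :
    Submodule 𝕜 (StrongDual 𝕜 (Lip0 𝕜 M o)) :=
  (Submodule.span 𝕜 (Set.range (evalAt 𝕜 M o))).topologicalClosure

/-- The Lipschitz-free space of `M`. -/
def Free (𝕜 : Type v) [RCLike 𝕜] (M : Type u) [MetricSpace M] (o : M) : Type (max u v) :=
  ↥(freeSub 𝕜 M o)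

/-- the norm of the dual space, restricted -/
instance freeGroup (𝕜 : Type v) [RCLike 𝕜] (M : Type u) [MetricSpace M] (o : M) :
    NormedAddCommGroup (Free 𝕜 M o) :=
  Submodule.normedAddCommGroup (freeSub 𝕜 M o)
/-- scalar multiplication -/
instance freeSpace (𝕜 : Type v) [RCLike 𝕜] (M : Type u) [MetricSpace M] (o : M) :
    NormedSpace 𝕜 (Free 𝕜 M o) :=
  Submodule.normedSpace (freeSub 𝕜 M o)

/-- The element `δ(x)` of the Lipschitz-free space. -/
def delta (𝕜 : Type v) [RCLike 𝕜] (M : Type u) [MetricSpace M] (o : M) (x : M) : Free 𝕜 M o :=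
  ⟨evalAt 𝕜 M o x, Submodule.le_topologicalClosure _ (Submodule.subset_span ⟨x, rfl⟩)⟩

instance : CompleteSpace (Free 𝕜 M o) :=
  (Submodule.isClosed_topologicalClosure
    (Submodule.span 𝕜 (Set.range (evalAt 𝕜 M o)))).completeSpace_coe

/-- the inclusion -/
def incl (𝕜 : Type v) [RCLike 𝕜] (M : Type u) [MetricSpace M] (o : M) :
    Free 𝕜 M o →L[𝕜] StrongDual 𝕜 (Lip0 𝕜 M o) :=
  (freeSub 𝕜 M o).subtypeL

/-- constructor -/
def Lip0.mk (f : M → 𝕜) (h0 : f o = 0) (K : ℝ) (hK : 0 ≤ K)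
    (h : ∀ x y, ‖f x - f y‖ ≤ K * dist x y) : Lip0 𝕜 M o := ⟨f, h0, K, hK, h⟩

lemma evalAt_apply (x : M) (g : Lip0 𝕜 M o) : evalAt 𝕜 M o x g = g.fn x := rfl

lemma evalAt_base : evalAt 𝕜 M o o = 0 := by
  ext g
  exact g.fn_base

/-- The finitely supported element `∑ a(t) δ(t)` of `F(M)`. -/
def fr (𝕜 : Type v) [RCLike 𝕜] (M : Type u) [MetricSpace M] (o : M) : (M →₀ 𝕜) →ₗ[𝕜] Free 𝕜 M o :=
  Finsupp.linearCombination 𝕜 (delta 𝕜 M o)

/-- The pairing `∑ a(t) f(t)`. -/
def pr (a : M →₀ 𝕜) (f : M → 𝕜) : 𝕜 := ∑ t ∈ a.support, a t * f t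

end Pool.Agent.R229.FS
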