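import Pool.Agent.R229.FS.Basic

/-! Separated sequences are eventually far from finite dimensional subspaces. -/

set_option autoImplicit false

noncomputable section

namespace Pool.Agent.R229.FS

open Filter Topology

universe u v

/-- Hahn-Banach: a functional of norm at most one which vanishes on `E` and takes the value
`dist(x, E)` at `x`. -/
lemma exists_dist_functional {𝕜 : Type v} [RCLike 𝕜] {X : Type u} [NormedAddCommGroup X]
    [NormedSpace 𝕜 X] (E : Submodule 𝕜 X) (x : X) :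
    ∃ Φ : StrongDual 𝕜 X, ‖Φ‖ ≤ 1 ∧ (∀ y ∈ E, Φ y = 0) ∧
      Φ x = (Metric.infDist x (E : Set X) : 𝕜) := by
  obtain ⟨g, hg, hgx⟩ := exists_dual_vector'' 𝕜 (Submodule.Quotient.mk (p := E) x)
  let Q : X →L[𝕜] X ⧸ E := LinearMap.mkContinuous E.mkQ 1 (fun y => by
    rw [one_mul]
    exact Submodule.Quotient.norm_mk_le E y)
  have hQ : ‖Q‖ ≤ 1 := LinearMap.mkContinuous_norm_le _ zero_le_one _
  refine ⟨g.comp Q, ?_, ?_, ?_⟩
  · calc ‖g.comp Q‖ ≤ ‖g‖ * ‖Q‖ := g.opNorm_comp_le Q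
      _ ≤ 1 * 1 := mul_le_mul hg hQ (norm_nonneg _) zero_le_one
      _ = 1 := one_mul _
  · intro y hy
    have : Q y = 0 := (Submodule.Quotient.mk_eq_zero E).2 hy
    rw [ContinuousLinearMap.comp_apply, this, map_zero]
  · rw [ContinuousLinearMap.comp_apply]
    have h1 : Q x = Submodule.Quotient.mk (p := E) x := rfl
    rw [h1, hgx]
    congr 1
    exact QuotientAddGroup.norm_mk (S := E.toAddSubgroup) x

theorem far : StmtFar.{u, v} := by
  intro 𝕜 _ M _ o a r B η hr hη hB hsep F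
  by_contra hcon
  rw [not_eventually] at hcon
  -- the finite dimensional space
  let E : Submodule 𝕜 (Free 𝕜 M o) := Submodule.span 𝕜 ((delta 𝕜 M o) '' (F : Set M))
  haveI : FiniteDimensional 𝕜 E :=
    FiniteDimensional.span_of_finite 𝕜 (F.finite_toSet.image _)
  obtain ⟨ψ, hψ, hbad⟩ := extraction_of_frequently_atTop hcon
  have hclose : ∀ j, ∃ e : E, ‖fr 𝕜 M o (a (ψ j)) - e‖ < r / 2 - η := by
    intro j
    by_contra hno
    push Not at hno
    apply hbad j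
    obtain ⟨Φ, hΦ1, hΦ0, hΦx⟩ := exists_dist_functional E (fr 𝕜 M o (a (ψ j)))
    obtain ⟨f, hf, hfd, hfa⟩ := dual 𝕜 M o Φ
    refine ⟨f, ⟨hf.1, fun x y => (hf.2 x y).trans ?_⟩, fun t ht => ?_, ?_⟩
    · exact mul_le_mul_of_nonneg_right hΦ1 dist_nonneg
    · rw [hfd]
      exact hΦ0 _ (Submodule.subset_span ⟨t, ht, rfl⟩)
    · rw [← hfa, hΦx, RCLike.ofReal_re]
      rw [Metric.le_infDist ⟨0, E.zero_mem⟩]
      intro y hy
      rw [dist_eq_norm]
      exact hno ⟨y, hy⟩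
  choose e he using hclose
  have hbd : ∀ j, e j ∈ Metric.closedBall (0 : E) (B + r / 2) := by
    intro j
    rw [mem_closedBall_zero_iff]
    have h1 : ‖(e j : Free 𝕜 M o)‖ ≤ ‖fr 𝕜 M o (a (ψ j))‖ + ‖fr 𝕜 M o (a (ψ j)) - e j‖ := by
      have := norm_sub_le (fr 𝕜 M o (a (ψ j))) (fr 𝕜 M o (a (ψ j)) - e j)
      rwa [sub_sub_cancel] at this
    have h2 := hB (ψ j)
    have h3 := he j
    show ‖(e j : Free 𝕜 M o)‖ ≤ _
    linarith
  haveI : ProperSpace E := FiniteDimensional.proper_rclike 𝕜 E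
  obtain ⟨z, -, θ, hθ, hlim⟩ := (isCompact_closedBall (0 : E) (B + r / 2)).tendsto_subseq hbd
  have hc : CauchySeq (fun n => e (θ n)) := hlim.cauchySeq
  obtain ⟨N, hN⟩ := Metric.cauchySeq_iff.1 hc η hη
  have h1 := hN N le_rfl (N + 1) (Nat.le_succ N)
  have hne : ψ (θ N) ≠ ψ (θ (N + 1)) := by
    intro h
    have := hθ.injective (hψ.injective h)
    omega
  have h2 := hsep _ _ hne
  have h3 := he (θ N)
  have h4 := he (θ (N + 1))
  have h5 : ‖(e (θ N) : Free 𝕜 M o) - (e (θ (N + 1)) : Free 𝕜 M o)‖ < η := by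
    rw [dist_eq_norm] at h1
    exact h1
  have h6 : fr 𝕜 M o (a (ψ (θ N))) - fr 𝕜 M o (a (ψ (θ (N + 1)))) =
      (fr 𝕜 M o (a (ψ (θ N))) - e (θ N)) + ((e (θ N) : Free 𝕜 M o) - e (θ (N + 1))) -
      (fr 𝕜 M o (a (ψ (θ (N + 1)))) - e (θ (N + 1))) := by abel
  rw [h6] at h2
  have h7 := norm_sub_le ((fr 𝕜 M o (a (ψ (θ N))) - e (θ N)) +
    ((e (θ N) : Free 𝕜 M o) - e (θ (N + 1)))) (fr 𝕜 M o (a (ψ (θ (N + 1)))) - e (θ (N + 1)))
  have h8 := norm_add_le (fr 𝕜 M o (a (ψ (θ N))) - e (θ N))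
    ((e (θ N) : Free 𝕜 M o) - e (θ (N + 1)))
  linarith

end Pool.Agent.R229.FS
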