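import Pool.Agent.R229.FS.Basic

/-! The gliding hump part. -/

set_option autoImplicit false
set_option linter.unusedSectionVars false

noncomputable section

namespace Pool.Agent.R229.FS

open Filter Topology

universe u v

section cutoffs

variable {M : Type u} [MetricSpace M] {o : M}

lemma cut_nonneg (R : ℝ) (x : M) : 0 ≤ cut o R x := le_max_left _ _

lemma cut_le_one (R : ℝ) (x : M) : cut o R x ≤ 1 :=
  max_le zero_le_one (min_le_left _ _)

lemma cut_eq_one {R : ℝ} (hR : 0 < R) {x : M} (h : dist x o ≤ R) : cut o R x = 1 := by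
  unfold cut
  have h1 : dist x o / R ≤ 1 := (div_le_one hR).2 h
  rw [min_eq_left (by linarith), max_eq_right zero_le_one]

lemma cut_eq_zero {R : ℝ} (hR : 0 < R) {x : M} (h : 2 * R ≤ dist x o) : cut o R x = 0 := by
  unfold cut
  have h1 : 2 ≤ dist x o / R := (le_div_iff₀ hR).2 h
  rw [max_eq_left]
  exact (min_le_right _ _).trans (by linarith)

lemma clamp_abs (p q : ℝ) : |max 0 (min 1 p) - max 0 (min 1 q)| ≤ |p - q| := by
  rcases abs_cases (p - q) with ⟨h, h'⟩ | ⟨h, h'⟩ <;> rw [h, abs_le] <;>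
  rcases max_cases 0 (min 1 p) with ⟨h1, h1'⟩ | ⟨h1, h1'⟩ <;>
  rcases max_cases 0 (min 1 q) with ⟨h2, h2'⟩ | ⟨h2, h2'⟩ <;>
  rcases min_cases 1 p with ⟨h3, h3'⟩ | ⟨h3, h3'⟩ <;>
  rcases min_cases 1 q with ⟨h4, h4'⟩ | ⟨h4, h4'⟩ <;>
  constructor <;> linarith

lemma cut_diff {R : ℝ} (hR : 0 < R) {x y : M} (hxy : dist y o ≤ dist x o) :
    dist y o * |cut o R x - cut o R y| ≤ 2 * dist x y := by
  rcases le_or_gt (2 * R) (dist y o) with h | h
  · rw [cut_eq_zero hR h, cut_eq_zero hR (h.trans hxy), sub_zero, abs_zero, mul_zero]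
    positivity
  · have h1 : |cut o R x - cut o R y| ≤ dist x y / R := by
      refine (clamp_abs _ _).trans ?_
      have e : 2 - dist x o / R - (2 - dist y o / R) = (dist y o - dist x o) / R := by ring
      rw [e, abs_div, abs_of_pos hR]
      refine div_le_div_of_nonneg_right ?_ hR.le
      rw [dist_comm x y]
      exact abs_dist_sub_le y x o
    calc dist y o * |cut o R x - cut o R y| ≤ (2 * R) * (dist x y / R) :=
          mul_le_mul h.le h1 (abs_nonneg _) (by positivity)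
      _ = _ := by field_simp

end cutoffs

section mult

variable {𝕜 : Type v} [RCLike 𝕜] {M : Type u} [MetricSpace M] {o : M}

lemma lip_mul (ψ : M → ℝ) (C L : ℝ) (hL : 0 ≤ L) (f : M → 𝕜) (h0 : ∀ x, 0 ≤ ψ x)
    (h1 : ∀ x, ψ x ≤ 1)
    (hψ : ∀ x y, dist y o ≤ dist x o → dist y o * |ψ x - ψ y| ≤ C * dist x y)
    (hf : IsLip o L f) : IsLip o (L + C * L) (fun t => (ψ t : 𝕜) * f t) := by
  have key : ∀ x y, dist y o ≤ dist x o →
      ‖(ψ x : 𝕜) * f x - (ψ y : 𝕜) * f y‖ ≤ (L + C * L) * dist x y := by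
    intro x y hxy
    have e : (ψ x : 𝕜) * f x - (ψ y : 𝕜) * f y =
        (ψ x : 𝕜) * (f x - f y) + ((ψ x - ψ y : ℝ) : 𝕜) * f y := by push_cast; ring
    rw [e]
    have a1 : ‖(ψ x : 𝕜) * (f x - f y)‖ ≤ L * dist x y := by
      rw [norm_mul, RCLike.norm_ofReal, abs_of_nonneg (h0 x)]
      calc ψ x * ‖f x - f y‖ ≤ 1 * ‖f x - f y‖ := mul_le_mul_of_nonneg_right (h1 x) (norm_nonneg _)
        _ ≤ _ := by rw [one_mul]; exact hf.2 x y
    have a2 : ‖((ψ x - ψ y : ℝ) : 𝕜) * f y‖ ≤ C * L * dist x y := by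
      rw [norm_mul, RCLike.norm_ofReal]
      have h3 : ‖f y‖ ≤ L * dist y o := by
        have := hf.2 y o
        rwa [hf.1, sub_zero] at this
      calc |ψ x - ψ y| * ‖f y‖ ≤ |ψ x - ψ y| * (L * dist y o) :=
            mul_le_mul_of_nonneg_left h3 (abs_nonneg _)
        _ = L * (dist y o * |ψ x - ψ y|) := by ring
        _ ≤ L * (C * dist x y) := mul_le_mul_of_nonneg_left (hψ x y hxy) hL
        _ = _ := by ring
    calc _ ≤ ‖(ψ x : 𝕜) * (f x - f y)‖ + ‖((ψ x - ψ y : ℝ) : 𝕜) * f y‖ := norm_add_le _ _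
      _ ≤ L * dist x y + C * L * dist x y := add_le_add a1 a2
      _ = _ := by ring
  refine ⟨by simp [hf.1], fun x y => ?_⟩
  rcases le_total (dist y o) (dist x o) with h | h
  · exact key x y h
  · have := key y x h
    rwa [norm_sub_rev, dist_comm] at this

lemma pr_mulF (χ : M → ℝ) (a : M →₀ 𝕜) (f : M → 𝕜) :
    pr (mulF χ a) f = pr a (fun t => (χ t : 𝕜) * f t) := by
  have hs : (mulF χ a).support ⊆ a.support := Finsupp.support_onFinset_subset
  unfold pr
  rw [Finset.sum_subset hs (fun t _ ht => by rw [Finsupp.notMem_support_iff.1 ht, zero_mul])]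
  refine Finset.sum_congr rfl fun t _ => ?_
  show ((χ t : 𝕜) * a t) * f t = _
  ring

lemma exists_ulim (U : Ultrafilter ℕ) (g : ℕ → 𝕜) (C : ℝ) (h : ∀ k, ‖g k‖ ≤ C) :
    ∃ c, Tendsto g (U : Filter ℕ) (𝓝 c) := by
  have hK : IsCompact (Metric.closedBall (0 : 𝕜) C) := isCompact_closedBall 0 C
  have h1 : ((U.map g : Ultrafilter 𝕜) : Filter 𝕜) ≤ 𝓟 (Metric.closedBall (0 : 𝕜) C) := by
    rw [le_principal_iff, Ultrafilter.coe_map, mem_map]
    exact Filter.Eventually.of_forall fun k => mem_closedBall_zero_iff.2 (h k)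
  obtain ⟨c, -, hc⟩ := hK.ultrafilter_le_nhds (U.map g) h1
  exact ⟨c, hc⟩

/-- Gluing of functions with disjoint supports. -/
lemma glue (f : ℕ → M → 𝕜) (L : ℝ) (hL : 0 ≤ L) (hf : ∀ n, IsLip o L (f n))
    (hdis : ∀ n m t, n ≠ m → f n t ≠ 0 → f m t = 0) (u : ℕ → 𝕜) (hu : ∀ n, ‖u n‖ ≤ 1) :
    ∃ F : M → 𝕜, IsLip o (2 * L) F ∧ (∀ n t, f n t ≠ 0 → F t = u n * f n t) ∧
      (∀ t, (∀ n, f n t = 0) → F t = 0) := by
  classical
  let F : M → 𝕜 := fun t => if hex : ∃ n, f n t ≠ 0 then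
    u (Nat.find hex) * f (Nat.find hex) t else 0
  have h1 : ∀ n t, f n t ≠ 0 → F t = u n * f n t := by
    intro n t ht
    have hex : ∃ n, f n t ≠ 0 := ⟨n, ht⟩
    have e : F t = u (Nat.find hex) * f (Nat.find hex) t := dif_pos hex
    have hfind : f (Nat.find hex) t ≠ 0 := Nat.find_spec hex
    have : Nat.find hex = n := by
      by_contra hne
      exact ht (hdis _ _ t hne hfind)
    rw [e, this]
  have h2 : ∀ t, (∀ n, f n t = 0) → F t = 0 := by
    intro t ht
    have hex : ¬ ∃ n, f n t ≠ 0 := by push Not; exact ht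
    exact dif_neg hex
  have h3 : ∀ n s t, f n s ≠ 0 → ‖F s - F t‖ ≤ 2 * L * dist s t := by
    intro n s t hs
    have hbs : ‖u n * f n s - u n * f n t‖ ≤ L * dist s t := by
      rw [← mul_sub, norm_mul]
      calc ‖u n‖ * ‖f n s - f n t‖ ≤ 1 * ‖f n s - f n t‖ :=
            mul_le_mul_of_nonneg_right (hu n) (norm_nonneg _)
        _ ≤ _ := by rw [one_mul]; exact (hf n).2 s t
    have hd : 0 ≤ L * dist s t := by positivity
    by_cases ht : ∃ m, f m t ≠ 0
    · obtain ⟨m, hm⟩ := ht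
      rcases eq_or_ne n m with rfl | hnm
      · rw [h1 n s hs, h1 n t hm]
        linarith
      · have e1 : f n t = 0 := hdis m n t hnm.symm hm
        have e2 : f m s = 0 := hdis n m s hnm hs
        rw [h1 n s hs, h1 m t hm]
        rw [e1, mul_zero, sub_zero] at hbs
        have hbt : ‖u m * f m t‖ ≤ L * dist s t := by
          rw [norm_mul]
          have := (hf m).2 s t
          rw [e2, zero_sub, norm_neg] at this
          calc ‖u m‖ * ‖f m t‖ ≤ 1 * ‖f m t‖ := mul_le_mul_of_nonneg_right (hu m) (norm_nonneg _)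
            _ ≤ _ := by rw [one_mul]; exact this
        have := norm_sub_le (u n * f n s) (u m * f m t)
        linarith
    · push Not at ht
      rw [h1 n s hs, h2 t ht]
      rw [ht n, mul_zero] at hbs
      linarith
  refine ⟨F, ⟨h2 o fun n => (hf n).1, fun s t => ?_⟩, h1, h2⟩
  by_cases hs : ∃ n, f n s ≠ 0
  · obtain ⟨n, hn⟩ := hs
    exact h3 n s t hn
  · by_cases ht : ∃ n, f n t ≠ 0
    · obtain ⟨n, hn⟩ := ht
      rw [norm_sub_rev, dist_comm]
      exact h3 n t s hn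
    · push Not at hs ht
      rw [h2 s hs, h2 t ht, sub_zero, norm_zero]
      positivity

lemma glue_pr (f : ℕ → M → 𝕜) (hdis : ∀ n m t, n ≠ m → f n t ≠ 0 → f m t = 0) (u : ℕ → 𝕜)
    (F : M → 𝕜) (h1 : ∀ n t, f n t ≠ 0 → F t = u n * f n t)
    (h2 : ∀ t, (∀ n, f n t = 0) → F t = 0) (a : M →₀ 𝕜) (N : ℕ)
    (hN : ∀ t ∈ a.support, ∀ m, N ≤ m → f m t = 0) :
    pr a F = ∑ m ∈ Finset.range N, u m * pr a (f m) := by
  unfold pr
  simp_rw [Finset.mul_sum]
  rw [Finset.sum_comm]
  refine Finset.sum_congr rfl fun t ht => ?_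
  by_cases hs : ∃ n, f n t ≠ 0
  · obtain ⟨n, hn⟩ := hs
    have hnN : n < N := by
      by_contra hge
      exact hn (hN t ht n (not_lt.1 hge))
    rw [Finset.sum_eq_single n, h1 n t hn]
    · ring
    · intro m _ hmn
      rw [hdis n m t hmn.symm hn, mul_zero, mul_zero]
    · intro h
      exact absurd (Finset.mem_range.2 hnN) h
  · push Not at hs
    rw [h2 t hs, mul_zero]
    symm
    refine Finset.sum_eq_zero fun m _ => ?_
    rw [hs m, mul_zero, mul_zero]

/-- Data of one hump. -/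
structure Item (𝕜 : Type v) (M : Type u) where
  k : ℕ
  N : ℕ
  N' : ℕ
  f : M → 𝕜
  c : 𝕜

end mult

theorem hump : StmtHump.{u, v} := by
  classical
  intro 𝕜 _ M _ o U a B s η hU hs hη hB hinf
  have hB0 : 0 ≤ B := (norm_nonneg _).trans (hB 0)
  let P : Item 𝕜 M → Prop := fun y => IsLip o 5 y.f ∧
    (∀ t, y.f t ≠ 0 → (2 : ℝ) ^ y.N < dist t o ∧ dist t o < (2 : ℝ) ^ (y.N' + 1)) ∧
    (∀ t ∈ (a y.k).support, dist t o ≤ (2 : ℝ) ^ y.N') ∧
    s ≤ RCLike.re (pr (a y.k) y.f) ∧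
    Tendsto (fun k => pr (a k) y.f) (U : Filter ℕ) (𝓝 y.c)
  let r : Item 𝕜 M → Item 𝕜 M → Prop := fun x y => x.k < y.k ∧ x.N' + 1 ≤ y.N ∧
    ‖pr (a y.k) x.f - x.c‖ ≤ η / 4 * (1 / 2) ^ x.k
  have hex : ∀ S : Finset (Item 𝕜 M), (∀ x ∈ S, P x) → ∃ y, P y ∧ ∀ x ∈ S, r x y := by
    intro S hS
    let N : ℕ := S.sup (fun x => x.N' + 1)
    have hN : ∀ x ∈ S, x.N' + 1 ≤ N := fun x hx => Finset.le_sup (f := fun x => x.N' + 1) hx
    have e1 : ∀ᶠ k in (U : Filter ℕ), ∀ x ∈ S, x.k < k ∧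
        ‖pr (a k) x.f - x.c‖ ≤ η / 4 * (1 / 2) ^ x.k := by
      rw [eventually_all_finset]
      intro x hx
      refine Filter.Eventually.and (hU (eventually_gt_atTop x.k)) ?_
      have h1 := (hS x hx).2.2.2.2
      have h2 : ∀ᶠ k in (U : Filter ℕ), dist (pr (a k) x.f) x.c < η / 4 * (1 / 2) ^ x.k :=
        Metric.tendsto_nhds.1 h1 _ (by positivity)
      filter_upwards [h2] with k hk
      rw [dist_eq_norm] at hk
      exact hk.le
    obtain ⟨k, hk1, hk2⟩ := (e1.and (hinf N)).exists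
    obtain ⟨f0, hf0, hf0n⟩ := norming 𝕜 M o (mulF (fun t => 1 - cut o ((2 : ℝ) ^ N) t) (a k))
    -- radius of the support
    obtain ⟨R, hR⟩ : ∃ R : ℕ, ∀ t ∈ (a k).support, dist t o ≤ (2 : ℝ) ^ R := by
      let Q : ℝ := ∑ t ∈ (a k).support, dist t o
      obtain ⟨R, hR⟩ := pow_unbounded_of_one_lt Q (one_lt_two)
      refine ⟨R, fun t ht => ?_⟩
      have : dist t o ≤ Q := Finset.single_le_sum (f := fun t => dist t o)
        (fun _ _ => dist_nonneg) ht
      linarith
    let ψ : M → ℝ := fun t => cut o ((2 : ℝ) ^ R) t * (1 - cut o ((2 : ℝ) ^ N) t)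
    have p2 : ∀ n : ℕ, (0 : ℝ) < 2 ^ n := fun n => by positivity
    have hψ0 : ∀ x, 0 ≤ ψ x := fun x => mul_nonneg (cut_nonneg _ _)
      (by have := cut_le_one (o := o) ((2 : ℝ) ^ N) x; linarith)
    have hψ1 : ∀ x, ψ x ≤ 1 := fun x => mul_le_one₀ (cut_le_one _ _)
      (by have := cut_le_one (o := o) ((2 : ℝ) ^ N) x; linarith)
      (by have := cut_nonneg (o := o) ((2 : ℝ) ^ N) x; linarith)
    have hψd : ∀ x y, dist y o ≤ dist x o → dist y o * |ψ x - ψ y| ≤ 4 * dist x y := by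
      intro x y hxy
      have h1 := cut_diff (p2 R) hxy
      have h2 := cut_diff (p2 N) hxy
      have e : ψ x - ψ y = (cut o ((2 : ℝ) ^ R) x - cut o ((2 : ℝ) ^ R) y) *
          (1 - cut o ((2 : ℝ) ^ N) x) - cut o ((2 : ℝ) ^ R) y *
          (cut o ((2 : ℝ) ^ N) x - cut o ((2 : ℝ) ^ N) y) := by
        simp only [ψ]; ring
      have h3 : |ψ x - ψ y| ≤ |cut o ((2 : ℝ) ^ R) x - cut o ((2 : ℝ) ^ R) y| +
          |cut o ((2 : ℝ) ^ N) x - cut o ((2 : ℝ) ^ N) y| := by
        rw [e]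
        refine (abs_sub _ _).trans ?_
        rw [abs_mul, abs_mul]
        refine add_le_add ?_ ?_
        · refine mul_le_of_le_one_right (abs_nonneg _) ?_
          rw [abs_le]
          have a1 := cut_le_one (o := o) ((2 : ℝ) ^ N) x
          have a2 := cut_nonneg (o := o) ((2 : ℝ) ^ N) x
          constructor <;> linarith
        · refine mul_le_of_le_one_left (abs_nonneg _) ?_
          rw [abs_le]
          have a1 := cut_le_one (o := o) ((2 : ℝ) ^ R) y
          have a2 := cut_nonneg (o := o) ((2 : ℝ) ^ R) y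
          constructor <;> linarith
      calc dist y o * |ψ x - ψ y| ≤ dist y o * (|cut o ((2 : ℝ) ^ R) x - cut o ((2 : ℝ) ^ R) y| +
          |cut o ((2 : ℝ) ^ N) x - cut o ((2 : ℝ) ^ N) y|) :=
            mul_le_mul_of_nonneg_left h3 dist_nonneg
        _ ≤ _ := by rw [mul_add]; linarith
    have hf5 : IsLip o 5 (fun t => (ψ t : 𝕜) * f0 t) := by
      have := lip_mul (o := o) ψ 4 1 zero_le_one f0 hψ0 hψ1 hψd hf0
      norm_num at this
      exact this
    obtain ⟨c, hc⟩ := exists_ulim U (fun k => pr (a k) (fun t => (ψ t : 𝕜) * f0 t)) (5 * B)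
      (fun k => (pr_le 𝕜 M o (a k) 5 _ (by norm_num) hf5).trans
        (mul_le_mul_of_nonneg_left (hB k) (by norm_num)))
    refine ⟨⟨k, N, R, fun t => (ψ t : 𝕜) * f0 t, c⟩, ⟨hf5, ?_, hR, ?_, hc⟩, fun x hx => ?_⟩
    · intro t ht
      have hψt : ψ t ≠ 0 := by
        intro h0
        exact ht (by simp [h0])
      constructor
      · by_contra hle
        exact hψt (by simp only [ψ]; rw [cut_eq_one (p2 N) (not_lt.1 hle)]; ring)
      · by_contra hle
        refine hψt ?_
        simp only [ψ]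
        rw [cut_eq_zero (p2 R) (by rw [pow_succ] at hle; linarith [not_lt.1 hle]), zero_mul]
    · have e : pr (a k) (fun t => (ψ t : 𝕜) * f0 t) =
          pr (mulF (fun t => 1 - cut o ((2 : ℝ) ^ N) t) (a k)) f0 := by
        rw [pr_mulF]
        unfold pr
        refine Finset.sum_congr rfl fun t ht => ?_
        simp only [ψ]
        rw [cut_eq_one (p2 R) (hR t ht), one_mul]
      show s ≤ RCLike.re (pr (a k) (fun t => (ψ t : 𝕜) * f0 t))
      rw [e, hf0n, RCLike.ofReal_re]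
      exact hk2
    · exact ⟨(hk1 x hx).1, hN x hx, (hk1 x hx).2⟩
  obtain ⟨y, hyP, hyr⟩ := exists_seq_of_forall_finset_exists P r hex
  -- the functions have disjoint supports
  have hpow : ∀ m n, m < n → (2 : ℝ) ^ ((y m).N' + 1) ≤ (2 : ℝ) ^ (y n).N := fun m n hmn =>
    pow_le_pow_right₀ one_le_two (hyr m n hmn).2.1
  have hdis1 : ∀ m n t, m < n → (y m).f t ≠ 0 → (y n).f t = 0 := by
    intro m n t hmn hm
    by_contra hn
    have h1 := (hyP m).2.1 t hm
    have h2 := (hyP n).2.1 t hn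
    have := hpow m n hmn
    linarith
  have hdis : ∀ n m t, n ≠ m → (y n).f t ≠ 0 → (y m).f t = 0 := by
    intro n m t hnm hn
    rcases lt_or_gt_of_ne hnm with h | h
    · exact hdis1 n m t h hn
    · by_contra hm
      exact hn (hdis1 m n t h hm)
  have hvan : ∀ m n, m < n → ∀ t ∈ (a (y m).k).support, (y n).f t = 0 := by
    intro m n hmn t ht
    by_contra hn
    have h1 := (hyP m).2.2.1 t ht
    have h2 := (hyP n).2.1 t hn
    have h3 := hpow m n hmn
    have h4 : (2 : ℝ) ^ (y m).N' ≤ (2 : ℝ) ^ ((y m).N' + 1) :=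
      pow_le_pow_right₀ one_le_two (Nat.le_succ _)
    linarith
  have hmono : StrictMono (fun n => (y n).k) := strictMono_nat_of_lt_succ fun n =>
    (hyr n (n + 1) (Nat.lt_succ_self n)).1
  have hge : ∀ n, n ≤ (y n).k := fun n => hmono.id_le n
  -- summability of the limits
  have hsum : ∀ n, ∑ m ∈ Finset.range n, ‖(y m).c‖ ≤ 10 * B := by
    intro n
    let w : ℕ → 𝕜 := fun m => (starRingEnd 𝕜) (y m).c / (‖(y m).c‖ : 𝕜)
    have hw : ∀ m, ‖w m‖ ≤ 1 := by
      intro m
      simp only [w]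
      rw [norm_div, RCLike.norm_conj, RCLike.norm_ofReal, abs_norm]
      exact div_self_le_one _
    let f' : ℕ → M → 𝕜 := fun m => if m < n then (y m).f else 0
    have hf'L : ∀ m, IsLip o 5 (f' m) := by
      intro m
      by_cases hm : m < n
      · simp only [f', hm, if_true]; exact (hyP m).1
      · simp only [f', hm, if_false]
        exact ⟨rfl, fun x y => by simp⟩
    have hf'd : ∀ m m' t, m ≠ m' → f' m t ≠ 0 → f' m' t = 0 := by
      intro m m' t hne hm
      by_cases h1 : m < n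
      · simp only [f', h1, if_true] at hm
        by_cases h2 : m' < n
        · simp only [f', h2, if_true]; exact hdis m m' t hne hm
        · simp only [f', h2, if_false]; rfl
      · simp only [f', h1, if_false] at hm
        exact absurd rfl hm
    obtain ⟨F, hFL, hF1, hF2⟩ := glue f' 5 (by norm_num) hf'L hf'd w hw
    have hpr : ∀ k, pr (a k) F = ∑ m ∈ Finset.range n, w m * pr (a k) (y m).f := by
      intro k
      rw [glue_pr f' hf'd w F hF1 hF2 (a k) n (fun t _ m hm => by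
        simp only [f', not_lt.2 hm, if_false]; rfl)]
      refine Finset.sum_congr rfl fun m hm => ?_
      simp only [f', Finset.mem_range.1 hm, if_true]
    have hlim : Tendsto (fun k => pr (a k) F) (U : Filter ℕ)
        (𝓝 (∑ m ∈ Finset.range n, w m * (y m).c)) := by
      simp_rw [hpr]
      exact tendsto_finsetSum _ fun m _ => ((hyP m).2.2.2.2).const_mul (w m)
    have hle : ‖∑ m ∈ Finset.range n, w m * (y m).c‖ ≤ 10 * B := by
      refine le_of_tendsto hlim.norm (Filter.Eventually.of_forall fun k => ?_)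
      have := pr_le 𝕜 M o (a k) (2 * 5) F (by norm_num) hFL
      refine this.trans ?_
      have h2 := hB k
      norm_num
      exact h2
    have heq : ∑ m ∈ Finset.range n, w m * (y m).c = ((∑ m ∈ Finset.range n, ‖(y m).c‖ : ℝ) : 𝕜) := by
      rw [RCLike.ofReal_sum]
      refine Finset.sum_congr rfl fun m _ => ?_
      simp only [w]
      rcases eq_or_ne (y m).c 0 with h0 | h0
      · simp [h0]
      · have hn : (‖(y m).c‖ : 𝕜) ≠ 0 := by simpa using h0
        rw [div_mul_eq_mul_div, div_eq_iff hn]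
        have := RCLike.conj_mul (y m).c
        rw [this]
        ring
    rw [heq, RCLike.norm_ofReal, abs_of_nonneg (Finset.sum_nonneg fun _ _ => norm_nonneg _)] at hle
    exact hle
  have hsummable : Summable fun m => ‖(y m).c‖ :=
    summable_of_sum_range_le (fun _ => norm_nonneg _) hsum
  obtain ⟨m0, hm0⟩ : ∃ m0 : ℕ, ∑' n, ‖(y (n + m0)).c‖ < η / 4 := by
    have := tendsto_sum_nat_add (fun m => ‖(y m).c‖)
    exact ((tendsto_order.1 this).2 (η / 4) (by positivity)).exists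
  have htail : ∀ n, ∑ m ∈ Finset.range n, ‖(y (m + m0)).c‖ ≤ η / 4 := by
    intro n
    have h1 : Summable fun m => ‖(y (m + m0)).c‖ :=
      (summable_nat_add_iff m0).2 hsummable
    exact (h1.sum_le_tsum _ (fun _ _ => norm_nonneg _)).trans hm0.le
  refine ⟨fun n => (y (n + m0)).k, fun m n hmn => hmono (by omega), fun u hu => ?_⟩
  let g : ℕ → M → 𝕜 := fun n => (y (n + m0)).f
  have hgd : ∀ n m t, n ≠ m → g n t ≠ 0 → g m t = 0 := fun n m t hnm hn =>
    hdis (n + m0) (m + m0) t (by omega) hn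
  obtain ⟨F, hFL, hF1, hF2⟩ := glue g 5 (by norm_num) (fun n => (hyP (n + m0)).1) hgd
    (fun n => (starRingEnd 𝕜) (u n)) (fun n => by rw [RCLike.norm_conj, hu n])
  refine ⟨F, by norm_num at hFL; exact hFL, fun n => ?_⟩
  have hpr := glue_pr g hgd (fun n => (starRingEnd 𝕜) (u n)) F hF1 hF2 (a (y (n + m0)).k) (n + 1)
    (fun t ht m hm => hvan (n + m0) (m + m0) (by omega) t ht)
  rw [Finset.sum_range_succ] at hpr
  have huc : u n * (starRingEnd 𝕜) (u n) = 1 := by
    rw [RCLike.mul_conj, hu n]; simp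
  have hrest : ‖∑ m ∈ Finset.range n, (starRingEnd 𝕜) (u m) * pr (a (y (n + m0)).k) (g m)‖ ≤
      η / 4 + η / 2 := by
    have h1 : ∀ m ∈ Finset.range n, ‖(starRingEnd 𝕜) (u m) * pr (a (y (n + m0)).k) (g m)‖ ≤
        ‖(y (m + m0)).c‖ + η / 4 * (1 / 2) ^ m := by
      intro m hm
      rw [norm_mul, RCLike.norm_conj, hu m, one_mul]
      have h2 := (hyr (m + m0) (n + m0) (by have := Finset.mem_range.1 hm; omega)).2.2
      have h3 : ‖pr (a (y (n + m0)).k) (g m)‖ ≤ ‖(y (m + m0)).c‖ +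
          ‖pr (a (y (n + m0)).k) (y (m + m0)).f - (y (m + m0)).c‖ := by
        have := norm_add_le (y (m + m0)).c
          (pr (a (y (n + m0)).k) (y (m + m0)).f - (y (m + m0)).c)
        rwa [add_sub_cancel] at this
      have h4 : η / 4 * (1 / 2 : ℝ) ^ (y (m + m0)).k ≤ η / 4 * (1 / 2) ^ m := by
        refine mul_le_mul_of_nonneg_left ?_ (by positivity)
        exact pow_le_pow_of_le_one (by norm_num) (by norm_num)
          (le_trans (by omega) (hge (m + m0)))
      linarith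
    refine (norm_sum_le_of_le _ h1).trans ?_
    rw [Finset.sum_add_distrib, ← Finset.mul_sum]
    have h5 : ∑ m ∈ Finset.range n, (1 / 2 : ℝ) ^ m ≤ 2 := by
      have := (summable_geometric_two).sum_le_tsum (Finset.range n)
        (fun _ _ => by positivity)
      rwa [tsum_geometric_two] at this
    have h6 := htail n
    nlinarith
  have hmain : u n * pr (a (y (n + m0)).k) F = pr (a (y (n + m0)).k) (g n) +
      u n * ∑ m ∈ Finset.range n, (starRingEnd 𝕜) (u m) * pr (a (y (n + m0)).k) (g m) := by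
    rw [hpr]
    linear_combination (pr (a (y (n + m0)).k) (g n)) * huc
  show s - η ≤ RCLike.re (u n * pr (a (y (n + m0)).k) F)
  rw [hmain, map_add]
  have h7 := (hyP (n + m0)).2.2.2.1
  have h8 : |RCLike.re (u n * ∑ m ∈ Finset.range n, (starRingEnd 𝕜) (u m) *
      pr (a (y (n + m0)).k) (g m))| ≤ η / 4 + η / 2 := by
    refine (RCLike.abs_re_le_norm _).trans ?_
    rw [norm_mul, hu n, one_mul]
    exact hrest
  have h9 := (abs_le.1 h8).1
  have h10 : s ≤ RCLike.re (pr (a (y (n + m0)).k) (g n)) := h7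
  linarith

end Pool.Agent.R229.FS
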