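import Pool.Agent.R229.FS.Far
import Pool.Agent.R229.FS.Core
import Pool.Agent.R229.FS.Hump

/-! The main theorem: `r`-separated bounded sequences in `F(M)` have `ℓ¹`-subsequences with
universal constants. -/

set_option autoImplicit false
set_option linter.unusedSectionVars false

noncomputable section

namespace Pool.Agent.R229.FS

open Filter Topology

universe u v

section aux

variable {𝕜 : Type v} [RCLike 𝕜] {M : Type u} [MetricSpace M] {o : M}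

lemma finish (x : ℕ → Free 𝕜 M o) (a : ℕ → M →₀ 𝕜) (η L c : ℝ) (hL : 0 < L)
    (ha : ∀ k, ‖x k - fr 𝕜 M o (a k)‖ ≤ η) (φ : ℕ → ℕ) (u : ℕ → 𝕜) (hu : ∀ n, ‖u n‖ = 1)
    (f : M → 𝕜) (hf : IsLip o L f) (h : ∀ n, c ≤ RCLike.re (u n * pr (a (φ n)) f)) :
    ∃ Φ : StrongDual 𝕜 (Free 𝕜 M o), ‖Φ‖ ≤ 1 ∧
      ∀ n, c / L - η ≤ RCLike.re (u n * Φ (x (φ n))) := by
  obtain ⟨Φ, hΦ, hΦa⟩ := functional 𝕜 M o L f hL.le hf
  have hn : ‖((L⁻¹ : ℝ) : 𝕜) • Φ‖ ≤ 1 := by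
    rw [norm_smul, RCLike.norm_ofReal, abs_of_pos (inv_pos.2 hL)]
    calc L⁻¹ * ‖Φ‖ ≤ L⁻¹ * L := mul_le_mul_of_nonneg_left hΦ (inv_pos.2 hL).le
      _ = 1 := inv_mul_cancel₀ hL.ne'
  refine ⟨((L⁻¹ : ℝ) : 𝕜) • Φ, hn, fun n => ?_⟩
  have e : u n * (((L⁻¹ : ℝ) : 𝕜) • Φ) (x (φ n)) =
      ((L⁻¹ : ℝ) : 𝕜) * (u n * pr (a (φ n)) f) +
      u n * (((L⁻¹ : ℝ) : 𝕜) • Φ) (x (φ n) - fr 𝕜 M o (a (φ n))) := by
    rw [map_sub]
    simp only [FunLike.coe_smul, Pi.smul_apply, smul_eq_mul, hΦa]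
    ring
  rw [e, map_add, RCLike.re_ofReal_mul]
  have h1 : ‖u n * (((L⁻¹ : ℝ) : 𝕜) • Φ) (x (φ n) - fr 𝕜 M o (a (φ n)))‖ ≤ η := by
    rw [norm_mul, hu n, one_mul]
    calc _ ≤ ‖((L⁻¹ : ℝ) : 𝕜) • Φ‖ * ‖x (φ n) - fr 𝕜 M o (a (φ n))‖ :=
          ContinuousLinearMap.le_opNorm _ _
      _ ≤ 1 * η := mul_le_mul hn (ha _) (norm_nonneg _) zero_le_one
      _ = η := one_mul _
  have h2 := (abs_le.1 ((RCLike.abs_re_le_norm _).trans h1)).1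
  have h3 : c / L ≤ L⁻¹ * RCLike.re (u n * pr (a (φ n)) f) := by
    rw [div_eq_inv_mul]
    exact mul_le_mul_of_nonneg_left (h n) (inv_pos.2 hL).le
  linarith

lemma mulF_add (χ : M → ℝ) (a : M →₀ 𝕜) :
    mulF χ a + mulF (fun t => 1 - χ t) a = a := by
  ext t
  show (χ t : 𝕜) * a t + ((1 - χ t : ℝ) : 𝕜) * a t = a t
  push_cast
  ring

end aux

theorem main : StmtMain.{u, v} := by
  intro 𝕜 _ M _ o x ε r B hε hr hsep hB hx
  obtain ⟨η, hηd⟩ : ∃ η : ℝ, η = r / 1000 := ⟨_, rfl⟩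
  have hη : 0 < η := by rw [hηd]; positivity
  choose a ha0 ha using fun k => dense 𝕜 M o (x k) η hη
  have ha' : ∀ k, ‖x k - fr 𝕜 M o (a k)‖ ≤ η := fun k => (ha k).le
  have hB' : ∀ k, ‖fr 𝕜 M o (a k)‖ ≤ B + η := by
    intro k
    have h1 := norm_sub_le (x k) (x k - fr 𝕜 M o (a k))
    rw [sub_sub_cancel] at h1
    have h2 := hB k
    have h3 := ha' k
    linarith
  have hsep' : ∀ k l, k ≠ l → r - 2 * η ≤ ‖fr 𝕜 M o (a k) - fr 𝕜 M o (a l)‖ := by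
    intro k l hkl
    have h1 := hx k l hkl
    have e : x k - x l = (x k - fr 𝕜 M o (a k)) + (fr 𝕜 M o (a k) - fr 𝕜 M o (a l)) -
        (x l - fr 𝕜 M o (a l)) := by abel
    rw [e] at h1
    have h2 := norm_sub_le ((x k - fr 𝕜 M o (a k)) + (fr 𝕜 M o (a k) - fr 𝕜 M o (a l)))
      (x l - fr 𝕜 M o (a l))
    have h3 := norm_add_le (x k - fr 𝕜 M o (a k)) (fr 𝕜 M o (a k) - fr 𝕜 M o (a l))
    have h4 := ha' k
    have h5 := ha' l
    linarith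
  have hB0 : 0 ≤ B := (norm_nonneg _).trans (hB 0)
  let U : Ultrafilter ℕ := hyperfilter ℕ
  have hU : (U : Filter ℕ) ≤ atTop := Nat.hyperfilter_le_atTop
  by_cases hcase : ∀ N : ℕ, ∀ᶠ k in (U : Filter ℕ),
      r / 8 ≤ ‖fr 𝕜 M o (mulF (fun t => 1 - cut o ((2 : ℝ) ^ N) t) (a k))‖
  · obtain ⟨φ, hφ, h⟩ := hump 𝕜 M o U a (B + η) (r / 8) η hU (by positivity) hη hB' hcase
    refine ⟨φ, hφ, fun u hu => ?_⟩
    obtain ⟨f, hf, hfn⟩ := h u hu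
    obtain ⟨Φ, hΦ, hΦn⟩ := finish x a η 10 _ (by norm_num) ha' φ u hu f hf hfn
    refine ⟨Φ, hΦ, fun n => le_trans ?_ (hΦn n)⟩
    rw [hηd]
    linarith
  · push Not at hcase
    obtain ⟨N, hN⟩ := hcase
    have hN' : ∃ᶠ k in atTop,
        ‖fr 𝕜 M o (mulF (fun t => 1 - cut o ((2 : ℝ) ^ N) t) (a k))‖ < r / 8 :=
      (Filter.Eventually.frequently hN).filter_mono hU
    obtain ⟨ψ, hψ, hψs⟩ := extraction_of_frequently_atTop hN'
    let b : ℕ → M →₀ 𝕜 := fun j => mulF (cut o ((2 : ℝ) ^ N)) (a (ψ j))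
    have hdec : ∀ j, fr 𝕜 M o (a (ψ j)) = fr 𝕜 M o (b j) +
        fr 𝕜 M o (mulF (fun t => 1 - cut o ((2 : ℝ) ^ N) t) (a (ψ j))) := by
      intro j
      rw [← map_add, mulF_add]
    have hbB : ∀ j, ‖fr 𝕜 M o (b j)‖ ≤ B + η + r / 8 := by
      intro j
      have e : fr 𝕜 M o (b j) = fr 𝕜 M o (a (ψ j)) -
          fr 𝕜 M o (mulF (fun t => 1 - cut o ((2 : ℝ) ^ N) t) (a (ψ j))) := by
        rw [hdec j]; abel
      rw [e]
      have h1 := norm_sub_le (fr 𝕜 M o (a (ψ j)))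
        (fr 𝕜 M o (mulF (fun t => 1 - cut o ((2 : ℝ) ^ N) t) (a (ψ j))))
      have h2 := hB' (ψ j)
      have h3 := hψs j
      linarith
    have hbsep : ∀ i j, i ≠ j → 3 / 4 * r - 2 * η ≤ ‖fr 𝕜 M o (b i) - fr 𝕜 M o (b j)‖ := by
      intro i j hij
      have h1 := hsep' (ψ i) (ψ j) (fun h => hij (hψ.injective h))
      have e : fr 𝕜 M o (a (ψ i)) - fr 𝕜 M o (a (ψ j)) =
          (fr 𝕜 M o (b i) - fr 𝕜 M o (b j)) +
          (fr 𝕜 M o (mulF (fun t => 1 - cut o ((2 : ℝ) ^ N) t) (a (ψ i))) -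
          fr 𝕜 M o (mulF (fun t => 1 - cut o ((2 : ℝ) ^ N) t) (a (ψ j)))) := by
        rw [hdec i, hdec j]; abel
      rw [e] at h1
      have h2 := norm_add_le (fr 𝕜 M o (b i) - fr 𝕜 M o (b j))
        (fr 𝕜 M o (mulF (fun t => 1 - cut o ((2 : ℝ) ^ N) t) (a (ψ i))) -
          fr 𝕜 M o (mulF (fun t => 1 - cut o ((2 : ℝ) ^ N) t) (a (ψ j))))
      have h3 := norm_sub_le (fr 𝕜 M o (mulF (fun t => 1 - cut o ((2 : ℝ) ^ N) t) (a (ψ i))))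
          (fr 𝕜 M o (mulF (fun t => 1 - cut o ((2 : ℝ) ^ N) t) (a (ψ j))))
      have h4 := hψs i
      have h5 := hψs j
      linarith
    have hfar := far 𝕜 M o b (3 / 4 * r - 2 * η) (B + η + r / 8) η (by rw [hηd]; linarith) hη
      hbB hbsep
    have p2 : (0 : ℝ) < 2 ^ N := by positivity
    have hbsupp : ∀ j, ∀ t ∈ (b j).support, dist t o ≤ 2 * 2 ^ N := by
      intro j t ht
      by_contra hlt
      have h1 : cut o ((2 : ℝ) ^ N) t = 0 := cut_eq_zero p2 (not_le.1 hlt).le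
      have h2 : b j t = ((cut o ((2 : ℝ) ^ N) t : ℝ) : 𝕜) * a (ψ j) t := rfl
      rw [h1] at h2
      exact (Finsupp.mem_support_iff.1 ht) (by rw [h2]; simp)
    have hb0 : ∀ j, b j o = 0 := by
      intro j
      have h2 : b j o = ((cut o ((2 : ℝ) ^ N) o : ℝ) : 𝕜) * a (ψ j) o := rfl
      rw [h2, ha0, mul_zero]
    have hmass : ∀ j, ∑ t ∈ (b j).support, ‖b j t‖ ≤ 2 / ε * (B + η + r / 8) := by
      intro j
      exact (mass 𝕜 M o ε hε hsep (b j) (hb0 j)).trans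
        (mul_le_mul_of_nonneg_left (hbB j) (by positivity))
    obtain ⟨φ, hφ, h⟩ := core 𝕜 M o b ε (2 * 2 ^ N) (2 / ε * (B + η + r / 8))
      ((3 / 4 * r - 2 * η) / 2 - η) η hε (by positivity) (by positivity) hη hsep hbsupp hmass hfar
    refine ⟨ψ ∘ φ, hψ.comp hφ, fun u hu => ?_⟩
    obtain ⟨f, hf, hfn⟩ := h u hu
    have hcf : IsLip o 24 (fun t => ((cut o ((2 : ℝ) ^ N) t : ℝ) : 𝕜) * f t) := by
      have := lip_mul (o := o) (cut o ((2 : ℝ) ^ N)) 2 8 (by norm_num) f (cut_nonneg _)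
        (cut_le_one _) (fun x y hxy => cut_diff p2 hxy) hf
      norm_num at this
      exact this
    have hfn' : ∀ n, (3 / 4 * r - 2 * η) / 2 - η - η ≤ RCLike.re (u n * pr (a ((ψ ∘ φ) n))
        (fun t => ((cut o ((2 : ℝ) ^ N) t : ℝ) : 𝕜) * f t)) := by
      intro n
      rw [← pr_mulF]
      exact hfn n
    obtain ⟨Φ, hΦ, hΦn⟩ := finish x a η 24 _ (by norm_num) ha' (ψ ∘ φ) u hu _ hcf hfn'
    refine ⟨Φ, hΦ, fun n => le_trans ?_ (hΦn n)⟩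
    rw [hηd]
    linarith

end Pool.Agent.R229.FS
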