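import Pool.Agent.R229.FS.Defs

/-! Exact statements of the pieces of the project FS (quantitative Schur property of `F(M)`). -/

set_option autoImplicit false

namespace Pool.Agent.R229.FS

open Filter Topology

universe u v

/-- `f` is `L`-Lipschitz and vanishes at `o`. -/
def IsLip {𝕜 : Type v} [RCLike 𝕜] {M : Type u} [MetricSpace M] (o : M) (L : ℝ) (f : M → 𝕜) :
    Prop :=
  f o = 0 ∧ ∀ x y, ‖f x - f y‖ ≤ L * dist x y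

/-- `‖∑ a(t) f(t)‖ ≤ L ‖∑ a(t) δ(t)‖` for `f` `L`-Lipschitz, `f o = 0`. -/
def StmtPrLe : Prop := ∀ (𝕜 : Type v) [RCLike 𝕜] (M : Type u) [MetricSpace M] (o : M)
  (a : M →₀ 𝕜) (L : ℝ) (f : M → 𝕜), 0 ≤ L → IsLip o L f →
  ‖pr a f‖ ≤ L * ‖fr 𝕜 M o a‖

/-- A Lipschitz function defines a functional on `F(M)`. -/
def StmtFunctional : Prop := ∀ (𝕜 : Type v) [RCLike 𝕜] (M : Type u) [MetricSpace M] (o : M)
  (L : ℝ) (f : M → 𝕜), 0 ≤ L → IsLip o L f →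
  ∃ Φ : StrongDual 𝕜 (Free 𝕜 M o), ‖Φ‖ ≤ L ∧ ∀ a : M →₀ 𝕜, Φ (fr 𝕜 M o a) = pr a f

/-- A functional of norm at most `L` comes from an `L`-Lipschitz function. -/
def StmtDual : Prop := ∀ (𝕜 : Type v) [RCLike 𝕜] (M : Type u) [MetricSpace M] (o : M)
  (Φ : StrongDual 𝕜 (Free 𝕜 M o)),
  ∃ f : M → 𝕜, IsLip o ‖Φ‖ f ∧ (∀ t, f t = Φ (delta 𝕜 M o t)) ∧
    ∀ a : M →₀ 𝕜, Φ (fr 𝕜 M o a) = pr a f

/-- Norming functions. -/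
def StmtNorming : Prop := ∀ (𝕜 : Type v) [RCLike 𝕜] (M : Type u) [MetricSpace M] (o : M)
  (a : M →₀ 𝕜), ∃ f : M → 𝕜, IsLip o 1 f ∧ pr a f = (‖fr 𝕜 M o a‖ : 𝕜)

/-- The finitely supported elements, with zero mass at the base point, are dense. -/
def StmtDense : Prop := ∀ (𝕜 : Type v) [RCLike 𝕜] (M : Type u) [MetricSpace M] (o : M)
  (x : Free 𝕜 M o) (η : ℝ), 0 < η → ∃ a : M →₀ 𝕜, a o = 0 ∧ ‖x - fr 𝕜 M o a‖ < η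

/-- The total mass is controlled by the norm when `M` is `ε`-separated. -/
def StmtMass : Prop := ∀ (𝕜 : Type v) [RCLike 𝕜] (M : Type u) [MetricSpace M] (o : M)
  (ε : ℝ), 0 < ε → (∀ x y : M, x ≠ y → ε ≤ dist x y) →
  ∀ a : M →₀ 𝕜, a o = 0 → ∑ t ∈ a.support, ‖a t‖ ≤ 2 / ε * ‖fr 𝕜 M o a‖

/-- Piece FS-B1: separated bounded sequences are eventually far from every finite dimensional
subspace. -/
def StmtFar : Prop := ∀ (𝕜 : Type v) [RCLike 𝕜] (M : Type u) [MetricSpace M] (o : M)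
  (a : ℕ → M →₀ 𝕜) (r B η : ℝ), 0 < r → 0 < η →
  (∀ k, ‖fr 𝕜 M o (a k)‖ ≤ B) →
  (∀ k l, k ≠ l → r ≤ ‖fr 𝕜 M o (a k) - fr 𝕜 M o (a l)‖) →
  ∀ F : Finset M, ∀ᶠ k in atTop, ∃ h : M → 𝕜, IsLip o 1 h ∧ (∀ t ∈ F, h t = 0) ∧
    r / 2 - η ≤ RCLike.re (pr (a k) h)

/-- Piece FS-B2: the core (all supports in a ball). -/
def StmtCore : Prop := ∀ (𝕜 : Type v) [RCLike 𝕜] (M : Type u) [MetricSpace M] (o : M)
  (a : ℕ → M →₀ 𝕜) (ε D K θ κ : ℝ), 0 < ε → 0 < D → 0 < K → 0 < κ →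
  (∀ x y : M, x ≠ y → ε ≤ dist x y) →
  (∀ k, ∀ t ∈ (a k).support, dist t o ≤ D) →
  (∀ k, ∑ t ∈ (a k).support, ‖a k t‖ ≤ K) →
  (∀ F : Finset M, ∀ᶠ k in atTop, ∃ h : M → 𝕜, IsLip o 1 h ∧ (∀ t ∈ F, h t = 0) ∧
    θ ≤ RCLike.re (pr (a k) h)) →
  ∃ φ : ℕ → ℕ, StrictMono φ ∧ ∀ u : ℕ → 𝕜, (∀ n, ‖u n‖ = 1) →
    ∃ f : M → 𝕜, IsLip o 8 f ∧ ∀ n, θ - κ ≤ RCLike.re (u n * pr (a (φ n)) f)

/-- The cutoff function: `1` on the ball of radius `R`, `0` outside the ball of radius `2 R`,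
linear in between. -/
noncomputable def cut {M : Type u} [MetricSpace M] (o : M) (R : ℝ) (x : M) : ℝ :=
  max 0 (min 1 (2 - dist x o / R))

/-- Multiplication of a finitely supported `a` by a real function. -/
noncomputable def mulF {𝕜 : Type v} [RCLike 𝕜] {M : Type u} (χ : M → ℝ) (a : M →₀ 𝕜) :
    M →₀ 𝕜 :=
  Finsupp.onFinset a.support (fun t => (χ t : 𝕜) * a t) (fun t ht => by
    rw [Finsupp.mem_support_iff]; intro h; exact ht (by simp [h]))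

/-- Piece FS-C1: the gliding hump case: mass escapes to infinity. `U` is an ultrafilter on `ℕ`
containing all cofinite sets. -/
def StmtHump : Prop := ∀ (𝕜 : Type v) [RCLike 𝕜] (M : Type u) [MetricSpace M] (o : M)
  (U : Ultrafilter ℕ) (a : ℕ → M →₀ 𝕜) (B s η : ℝ), (U : Filter ℕ) ≤ atTop → 0 < s → 0 < η →
  (∀ k, ‖fr 𝕜 M o (a k)‖ ≤ B) →
  (∀ N : ℕ, ∀ᶠ k in (U : Filter ℕ),
    s ≤ ‖fr 𝕜 M o (mulF (fun t => 1 - cut o ((2 : ℝ) ^ N) t) (a k))‖) →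
  ∃ φ : ℕ → ℕ, StrictMono φ ∧ ∀ u : ℕ → 𝕜, (∀ n, ‖u n‖ = 1) →
    ∃ f : M → 𝕜, IsLip o 10 f ∧ ∀ n, s - η ≤ RCLike.re (u n * pr (a (φ n)) f)

/-- Piece FS-C2: the main theorem. -/
def StmtMain : Prop := ∀ (𝕜 : Type v) [RCLike 𝕜] (M : Type u) [MetricSpace M] (o : M)
  (x : ℕ → Free 𝕜 M o) (ε r B : ℝ), 0 < ε → 0 < r →
  (∀ x y : M, x ≠ y → ε ≤ dist x y) →
  (∀ k, ‖x k‖ ≤ B) → (∀ k l, k ≠ l → r ≤ ‖x k - x l‖) →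
  ∃ φ : ℕ → ℕ, StrictMono φ ∧ ∀ u : ℕ → 𝕜, (∀ n, ‖u n‖ = 1) →
    ∃ Φ : StrongDual 𝕜 (Free 𝕜 M o), ‖Φ‖ ≤ 1 ∧
      ∀ n, r / 100 ≤ RCLike.re (u n * Φ (x (φ n)))

end Pool.Agent.R229.FS
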